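import Pool.Agent.Q99.JTS.Chain

/-!
# Functionals on the bidual of the James tree space and on the dual of a subspace of its dual
-/

set_option autoImplicit false
open Filter Topology Finset
open scoped ENNReal Pointwise

namespace Q99.JTS

open Pool.Agent.H585R4.JT Pool.Agent.H511R3.JT

/-- the dual of the James tree space -/
abbrev DR := StrongDual ℝ VR

theorem tC1 : TaskC1 ℝ := Pool.Agent.H973R3.JT.taskC1 ℝ
theorem tC2 : TaskC2 ℝ := taskC2

/-- functionals with prescribed limits along the branches -/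
theorem exists_lift (ξ : (ℕ → Bool) → ℝ) (hξ : Summable (fun γ => (ξ γ) ^ 2)) :
    ∃ h : DR, (∀ γ, Lam γ h = ξ γ) ∧
      ∀ z : StrongDual ℝ DR, (∀ s, z (ev s) = 0) → HasSum (fun γ => ξ γ * z (bb γ)) (z h) := by
  classical
  obtain ⟨N, hN⟩ := exists_levels _ hξ
  obtain ⟨b', hb'⟩ : ∃ b' : (ℕ → Bool) → DR, b' = fun γ => bb γ - ev (bn γ (N γ)) := ⟨_, rfl⟩
  have hsum : Summable (fun γ => ξ γ • b' γ) := by
    rw [summable_iff_vanishing_norm]
    intro ε hε
    obtain ⟨s, hs'⟩ := summable_iff_vanishing_norm.1 hξ (ε ^ 2) (by positivity)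
    refine ⟨s, fun t ht => ?_⟩
    have h3 := hs' t ht
    have h0 : 0 ≤ ∑ γ ∈ t, (ξ γ) ^ 2 := Finset.sum_nonneg fun i _ => by positivity
    rw [Real.norm_eq_abs, abs_of_nonneg h0] at h3
    have e1 : ∑ γ ∈ t, ξ γ • b' γ = ∑ γ ∈ t.filter (fun γ => (ξ γ) ^ 2 ≠ 0), ξ γ • b' γ := by
      symm
      apply Finset.sum_filter_of_ne
      intro γ _ hne h
      apply hne
      have h4 : ξ γ = 0 := pow_eq_zero_iff (two_ne_zero) |>.1 h
      rw [h4, zero_smul]
    rw [e1, hb']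
    have h4 := norm_sum_bb (𝕜 := ℝ) (t.filter (fun γ => (ξ γ) ^ 2 ≠ 0)) N
      (fun γ hγ γ' hγ' hne n hn hn' => hN γ γ' (Finset.mem_filter.1 hγ).2 (Finset.mem_filter.1 hγ').2
        hne n hn hn') (fun γ => ξ γ)
    refine lt_of_le_of_lt h4 ?_
    rw [Real.sqrt_lt' hε]
    refine lt_of_le_of_lt ?_ h3
    have h5 : ∀ γ, ‖ξ γ‖ ^ 2 = (ξ γ) ^ 2 := fun γ => by rw [Real.norm_eq_abs, sq_abs]
    rw [Finset.sum_congr rfl (fun γ _ => h5 γ)]
    exact Finset.sum_le_sum_of_subset_of_nonneg (Finset.filter_subset _ _)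
      (fun γ _ _ => by positivity)
  obtain ⟨h, hh⟩ := hsum
  refine ⟨h, ?_, ?_⟩
  · intro γ0
    have h3 := (Lam γ0).hasSum hh
    have h4 : HasSum (fun γ => Lam γ0 (ξ γ • b' γ)) (Lam γ0 (ξ γ0 • b' γ0)) := by
      apply hasSum_single
      intro γ hne
      rw [map_smul, hb', map_sub, Lam_bb_ne hne.symm, Lam_ev, sub_zero, smul_zero]
    have h5 : Lam γ0 (ξ γ0 • b' γ0) = ξ γ0 := by
      rw [map_smul, hb', map_sub, Lam_bb_self, Lam_ev, sub_zero, smul_eq_mul, mul_one]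
    rw [h5] at h4
    exact h3.unique h4
  · intro z hz
    have h3 := z.hasSum hh
    have h4 : (fun γ => ξ γ * z (bb γ)) = fun γ => z (ξ γ • b' γ) := by
      funext γ
      rw [map_smul, hb', map_sub, hz, sub_zero, smul_eq_mul]
    rw [h4]
    exact h3

theorem norm_sum_Lam (G : Finset (ℕ → Bool)) (c : (ℕ → Bool) → ℝ) :
    ‖(∑ γ ∈ G, c γ • Lam γ : StrongDual ℝ DR)‖ ≤ Real.sqrt (∑ γ ∈ G, (c γ) ^ 2) := by
  refine ContinuousLinearMap.opNorm_le_bound _ (Real.sqrt_nonneg _) fun f => ?_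
  have e1 : (∑ γ ∈ G, c γ • Lam γ : StrongDual ℝ DR) f = ∑ γ ∈ G, c γ * Lam γ f := by
    rw [_root_.sum_apply]
    rfl
  rw [e1]
  have h1 : ‖∑ γ ∈ G, c γ * Lam γ f‖ ≤ ∑ γ ∈ G, |c γ| * ‖Lam γ f‖ :=
    (norm_sum_le _ _).trans (le_of_eq (Finset.sum_congr rfl fun γ _ => by rw [norm_mul, Real.norm_eq_abs (c γ)]))
  refine h1.trans ((cs_bound G _ _ ‖f‖ (fun _ => abs_nonneg _) (fun _ => norm_nonneg _)
    (norm_nonneg _) (sum_Lam_le G f)).trans (le_of_eq ?_))
  congr 2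
  exact Finset.sum_congr rfl fun γ _ => sq_abs _

/-- a functional vanishing on the evaluations is the norm limit of its finite parts -/
theorem z_near (z : StrongDual ℝ DR) (hz : ∀ s, z (ev s) = 0) {ε : ℝ} (hε : 0 < ε) :
    ∃ G0 : Finset (ℕ → Bool), ∀ G, G0 ⊆ G → ‖z - ∑ γ ∈ G, z (bb γ) • (Lam γ : StrongDual ℝ DR)‖ ≤ ε := by
  classical
  have hs : Summable (fun γ => (z (bb γ)) ^ 2) := by
    have := summable_z z hz
    refine this.congr fun γ => ?_
    rw [Real.norm_eq_abs, sq_abs]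
  obtain ⟨G0, hG0⟩ := summable_iff_vanishing_norm.1 hs (ε ^ 2) (by positivity)
  refine ⟨G0, fun G hG => ?_⟩
  refine ContinuousLinearMap.opNorm_le_bound _ hε.le fun f => ?_
  have h2 := z_hasSum tC1 tC2 z hz f
  have h3 : HasSum (fun γ => Lam γ f * z (bb γ) - (if γ ∈ G then Lam γ f * z (bb γ) else 0))
      (z f - ∑ γ ∈ G, Lam γ f * z (bb γ)) := by
    refine h2.sub ?_
    have h4 : ∑ γ ∈ G, Lam γ f * z (bb γ) = ∑ γ ∈ G, (if γ ∈ G then Lam γ f * z (bb γ) else 0) :=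
      Finset.sum_congr rfl fun γ hγ => by rw [if_pos hγ]
    rw [h4]
    apply hasSum_sum_of_ne_finset_zero
    intro γ hγ
    rw [if_neg hγ]
  have e1 : (z - ∑ γ ∈ G, z (bb γ) • (Lam γ : StrongDual ℝ DR)) f = z f - ∑ γ ∈ G, Lam γ f * z (bb γ) := by
    rw [_root_.sub_apply, _root_.sum_apply]
    congr 1
    exact Finset.sum_congr rfl fun γ _ => mul_comm _ _
  rw [e1]
  refine le_of_tendsto h3.norm (Filter.Eventually.of_forall fun H => ?_)
  have e2 : ∑ γ ∈ H, (Lam γ f * z (bb γ) - (if γ ∈ G then Lam γ f * z (bb γ) else 0)) =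
      ∑ γ ∈ H \ G, Lam γ f * z (bb γ) := by
    rw [← Finset.sdiff_union_inter H G, Finset.sum_union (Finset.disjoint_sdiff_inter H G),
      Finset.sdiff_union_inter]
    have h5 : ∑ γ ∈ H ∩ G, (Lam γ f * z (bb γ) - (if γ ∈ G then Lam γ f * z (bb γ) else 0)) = 0 := by
      apply Finset.sum_eq_zero
      intro γ hγ
      rw [if_pos (Finset.mem_inter.1 hγ).2, sub_self]
    rw [h5, add_zero]
    apply Finset.sum_congr rfl
    intro γ hγ
    rw [if_neg (Finset.mem_sdiff.1 hγ).2, sub_zero]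
  rw [e2]
  have h6 : ‖∑ γ ∈ H \ G, Lam γ f * z (bb γ)‖ ≤ ∑ γ ∈ H \ G, |z (bb γ)| * ‖Lam γ f‖ :=
    (norm_sum_le _ _).trans (le_of_eq (Finset.sum_congr rfl fun γ _ => by
      rw [norm_mul, mul_comm, Real.norm_eq_abs (z (bb γ))]))
  refine h6.trans ((cs_bound _ _ _ ‖f‖ (fun _ => abs_nonneg _) (fun _ => norm_nonneg _)
    (norm_nonneg _) (sum_Lam_le _ f)).trans ?_)
  refine mul_le_mul_of_nonneg_right ?_ (norm_nonneg _)
  have h7 := hG0 (H \ G) (by
    rw [Finset.disjoint_left]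
    intro γ hγ hγ'
    exact (Finset.mem_sdiff.1 hγ).2 (hG hγ'))
  have h0 : 0 ≤ ∑ γ ∈ H \ G, (z (bb γ)) ^ 2 := Finset.sum_nonneg fun i _ => by positivity
  rw [Real.norm_eq_abs, abs_of_nonneg h0] at h7
  rw [Real.sqrt_le_left hε.le]
  refine le_trans (le_of_eq ?_) h7.le
  exact Finset.sum_congr rfl fun γ _ => sq_abs _

/-- the structure of the functionals on the bidual -/
theorem exists_seq (Θ : StrongDual ℝ DR →ₗ[ℝ] ℝ) (C : ℝ) (hC : 0 ≤ C) (hΘ : ∀ w, |Θ w| ≤ C * ‖w‖) :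
    ∃ η g : DR, ∀ z : StrongDual ℝ DR,
    Tendsto (fun m => z (η + g.comp (PP m))) atTop (𝓝 (Θ z)) := by
  classical
  have hξ : Summable (fun γ => (Θ (Lam γ)) ^ 2) := by
    apply summable_of_sum_le (c := C ^ 2) (fun γ => by positivity)
    intro G
    have h0 : 0 ≤ ∑ γ ∈ G, (Θ (Lam γ)) ^ 2 := Finset.sum_nonneg fun i _ => by positivity
    apply le_sq_of h0
    have e1 : Θ (∑ γ ∈ G, Θ (Lam γ) • Lam γ) = ∑ γ ∈ G, (Θ (Lam γ)) ^ 2 := by
      rw [map_sum]
      refine Finset.sum_congr rfl fun γ _ => ?_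
      rw [map_smul, smul_eq_mul]
      ring
    have h1 := hΘ (∑ γ ∈ G, Θ (Lam γ) • Lam γ)
    rw [e1, abs_of_nonneg h0] at h1
    exact h1.trans (mul_le_mul_of_nonneg_left (norm_sum_Lam G _) hC)
  obtain ⟨η, hη1, hη2⟩ := exists_lift _ hξ
  obtain ⟨y, hy⟩ : ∃ y : DR, ∀ x, y x = Θ (NormedSpace.inclusionInDoubleDual ℝ VR x) := by
    refine ⟨LinearMap.mkContinuous (Θ.comp (NormedSpace.inclusionInDoubleDual ℝ VR : VR →ₗ[ℝ] StrongDual ℝ DR))
      C (fun x => ?_), fun x => rfl⟩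
    refine (hΘ _).trans (mul_le_mul_of_nonneg_left ?_ hC)
    exact NormedSpace.double_dual_bound ℝ VR x
  refine ⟨η, y - η, fun z => ?_⟩
  obtain ⟨x, hx⟩ := exists_part z
  obtain ⟨z0, hz0⟩ : ∃ z0 : StrongDual ℝ DR, z0 = z - NormedSpace.inclusionInDoubleDual ℝ VR x := ⟨_, rfl⟩
  have hzz : z = NormedSpace.inclusionInDoubleDual ℝ VR x + z0 := by
    rw [hz0]
    abel
  have hzv : ∀ s, z0 (ev s) = 0 := by
    intro s
    rw [hz0]
    show z (ev s) - ev s x = 0
    rw [hx, sub_self]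
  have h1 : Θ z0 = z0 η := by
    have h3 := hη2 z0 hzv
    refine tendsto_nhds_unique (f := fun G : Finset (ℕ → Bool) => ∑ γ ∈ G, Θ (Lam γ) * z0 (bb γ)) (l := atTop) ?_ h3
    rw [Metric.tendsto_atTop]
    intro ε hε
    obtain ⟨G0, hG0⟩ := z_near z0 hzv (show 0 < ε / (C + 1) by positivity)
    refine ⟨G0, fun G hG => ?_⟩
    have h4 := hΘ (z0 - ∑ γ ∈ G, z0 (bb γ) • (Lam γ : StrongDual ℝ DR))
    have h4' : Θ (z0 - ∑ γ ∈ G, z0 (bb γ) • (Lam γ : StrongDual ℝ DR)) =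
        Θ z0 - Θ (∑ γ ∈ G, z0 (bb γ) • (Lam γ : StrongDual ℝ DR)) := by
      obtain ⟨S, hS⟩ : ∃ S : StrongDual ℝ DR, S = ∑ γ ∈ G, z0 (bb γ) • (Lam γ : StrongDual ℝ DR) := ⟨_, rfl⟩
      rw [← hS, eq_sub_iff_add_eq, ← map_add]
      have h8 : z0 - S + S = z0 := by
        ext f
        show z0 f - S f + S f = z0 f
        ring
      rw [h8]
    rw [h4', map_sum] at h4
    have h5 : ∑ γ ∈ G, Θ (z0 (bb γ) • (Lam γ : StrongDual ℝ DR)) = ∑ γ ∈ G, Θ (Lam γ) * z0 (bb γ) := by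
      refine Finset.sum_congr rfl fun γ _ => ?_
      rw [map_smul, smul_eq_mul, mul_comm]
    rw [h5] at h4
    rw [Real.dist_eq, abs_sub_comm]
    have h6 : C * ‖z0 - ∑ γ ∈ G, z0 (bb γ) • (Lam γ : StrongDual ℝ DR)‖ ≤ C * (ε / (C + 1)) :=
      mul_le_mul_of_nonneg_left (hG0 G hG) hC
    have h7 : C * (ε / (C + 1)) < ε := by
      rw [mul_div_assoc', div_lt_iff₀ (by positivity)]
      nlinarith
    linarith
  have h2 : ∀ m, z (η + (y - η).comp (PP m)) = η x + (y - η) (PP m x) + z0 η := by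
    intro m
    rw [hzz]
    show (η x + (y - η) (PP m x)) + z0 (η + (y - η).comp (PP m)) = _
    rw [map_add, z_PP z0 hzv, add_zero]
  have h3 : Θ z = η x + (y - η) x + z0 η := by
    rw [hzz, map_add, h1, ← hy]
    show y x + z0 η = η x + (y x - η x) + z0 η
    ring
  rw [h3]
  have h4 : Tendsto (fun m => η x + (y - η) (PP m x) + z0 η) atTop (𝓝 (η x + (y - η) x + z0 η)) :=
    (tendsto_const_nhds.add (((y - η).continuous.tendsto x).comp (tendsto_PP x))).add tendsto_const_nhds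
  exact h4.congr fun m => (h2 m).symm

/-- the separation argument -/
theorem exists_near {E : Type} [NormedAddCommGroup E] [NormedSpace ℝ E] (Y : Submodule ℝ E) (q : ℕ → E)
    (hq : ∀ z : StrongDual ℝ E, (∀ y ∈ Y, z y = 0) → Tendsto (fun m => z (q m)) atTop (𝓝 0))
    (N : ℕ) {ε : ℝ} (hε : 0 < ε) : ∃ k ∈ convexHull ℝ (q '' Set.Ici N), ∃ y ∈ Y, ‖y - k‖ < ε := by
  by_contra hc
  push Not at hc
  obtain ⟨K, hK⟩ : ∃ K : Set E, K = convexHull ℝ (q '' Set.Ici N) := ⟨_, rfl⟩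
  have hKc : Convex ℝ K := by
    rw [hK]
    exact convex_convexHull ℝ _
  have hopen : IsOpen (K + Metric.ball (0 : E) ε) := Metric.isOpen_ball.add_left
  have hconv : Convex ℝ (K + Metric.ball (0 : E) ε) := hKc.add (convex_ball _ _)
  have hdisj : Disjoint (K + Metric.ball (0 : E) ε) (Y : Set E) := by
    rw [Set.disjoint_left]
    rintro _ ⟨k, hk, v, hv, rfl⟩ hy
    rw [hK] at hk
    have h1 := hc k hk (k + v) hy
    rw [add_sub_cancel_left] at h1
    rw [mem_ball_zero_iff] at hv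
    exact absurd hv (not_lt.2 h1)
  obtain ⟨f, u, hf1, hf2⟩ := geometric_hahn_banach_open hconv hopen Y.convex hdisj
  have hu : u ≤ 0 := by
    have := hf2 0 Y.zero_mem
    rwa [map_zero] at this
  have hfY : ∀ y ∈ Y, f y = 0 := by
    intro y hy
    by_contra hne
    have h1 := hf2 (((u - 1) / f y) • y) (Y.smul_mem _ hy)
    rw [map_smul, smul_eq_mul, div_mul_cancel₀ _ hne] at h1
    linarith
  have hqK : q N ∈ K := by
    rw [hK]
    exact subset_convexHull ℝ _ ⟨N, Set.self_mem_Ici, rfl⟩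
  have hne : ∃ v : E, ‖v‖ < ε ∧ 0 < f v := by
    have h1 : f (q N) < u := hf1 _ ⟨q N, hqK, 0, by simpa using hε, add_zero _⟩
    have h2 : f (q N) < 0 := lt_of_lt_of_le h1 hu
    have h3 : q N ≠ 0 := by
      intro h
      rw [h, map_zero] at h2
      exact lt_irrefl _ h2
    have h4 : 0 < ‖q N‖ := norm_pos_iff.2 h3
    refine ⟨(-(ε / (2 * ‖q N‖))) • q N, ?_, ?_⟩
    · rw [norm_smul, norm_neg, Real.norm_eq_abs, abs_of_nonneg (by positivity)]
      have : ε / (2 * ‖q N‖) * ‖q N‖ = ε / 2 := by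
        field_simp
      rw [this]
      linarith
    · rw [map_smul, smul_eq_mul, neg_mul, ← mul_neg]
      exact mul_pos (by positivity) (by linarith)
  obtain ⟨v, hv1, hv2⟩ := hne
  have h1 : ∀ m, N ≤ m → f (q m) ≤ -f v := by
    intro m hm
    have h2 : q m ∈ K := by
      rw [hK]
      exact subset_convexHull ℝ _ ⟨m, hm, rfl⟩
    have h3 : f (q m + v) < u := hf1 _ ⟨q m, h2, v, by simpa using hv1, rfl⟩
    rw [map_add] at h3
    linarith
  have h2 := hq f hfY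
  have h4 : (0 : ℝ) ≤ -f v := by
    refine le_of_tendsto h2 ?_
    filter_upwards [eventually_ge_atTop N] with m hm
    exact h1 m hm
  linarith

/-- truncated functionals converge in norm if there is no mass at the branches -/
theorem comp_PP_near (g : DR) (hg : ∀ γ, Lam γ g = 0) {ε : ℝ} (hε : 0 < ε) :
    ∃ N, ∀ m, N ≤ m → ‖g.comp (PP m) - g‖ ≤ ε := by
  have hC1 : ∀ γ : ℕ → Bool, ∀ ε > 0, ∃ n, ∀ x : VR, ‖g (RR (bn γ n) x)‖ ≤ ε * ‖x‖ := by
    intro γ
    apply tC1 g γ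
    intro ε hε N
    have h3 := (Lam_lim γ g).norm
    rw [hg γ, norm_zero] at h3
    have h4 : ∀ᶠ n in (hyperfilter ℕ : Filter ℕ), ‖g (ee (bn γ n))‖ < ε :=
      h3.eventually (gt_mem_nhds hε)
    obtain ⟨n, hn1, hn2⟩ := (h4.and (hyp_ge N)).exists
    exact ⟨n, hn2, hn1.le⟩
  obtain ⟨n, hn⟩ := tC2 g hC1 ε hε
  refine ⟨n, fun m hm => ContinuousLinearMap.opNorm_le_bound _ hε.le fun x => ?_⟩
  have e1 : (g.comp (PP m) - g) x = - g (QQ n (QQ m x)) := by
    show g (PP m x) - g x = _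
    have h1 : QQ n (QQ m x) = QQ m x := by
      apply ext_ev
      intro t
      rw [ev_QQ, ev_QQ, ev_QQ]
      have h2 : tr m (tr n t) = tr n t := tr_of_le (by rw [length_tr]; omega)
      rw [h2]
      ring
    rw [h1]
    have h3 : g x = g (PP m x) + g (QQ m x) := by rw [← map_add, PP_add_QQ]
    rw [h3]
    ring
  rw [e1, norm_neg]
  exact (hn _).trans (mul_le_mul_of_nonneg_left (QQ_le m x) hε.le)

/-- extension of functionals from a closed subspace -/
theorem ext_embed {Y E : Type} [NormedAddCommGroup Y] [NormedSpace ℝ Y] [NormedAddCommGroup E] [NormedSpace ℝ E]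
    (j : Y →L[ℝ] E) (c : ℝ) (hc : 0 < c) (hj : ∀ y, c * ‖y‖ ≤ ‖j y‖) (w : StrongDual ℝ Y) :
    ∃ z : StrongDual ℝ E, ∀ y, z (j y) = w y := by
  have hinj : Function.Injective j := by
    intro a b hab
    have h1 := hj (a - b)
    rw [map_sub, hab, sub_self, norm_zero] at h1
    have h2 : ‖a - b‖ ≤ 0 := by
      by_contra hcon
      push Not at hcon
      nlinarith
    exact sub_eq_zero.1 (norm_le_zero_iff.1 h2)
  let e := LinearEquiv.ofInjective (j : Y →ₗ[ℝ] E) hinj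
  let w' : LinearMap.range (j : Y →ₗ[ℝ] E) →ₗ[ℝ] ℝ := (w : Y →ₗ[ℝ] ℝ).comp (e.symm : _ →ₗ[ℝ] Y)
  have hb : ∀ v, ‖w' v‖ ≤ (‖w‖ * c⁻¹) * ‖v‖ := by
    intro v
    show ‖w (e.symm v)‖ ≤ _
    refine (w.le_opNorm _).trans ?_
    rw [mul_assoc]
    refine mul_le_mul_of_nonneg_left ?_ (norm_nonneg _)
    rw [inv_mul_eq_div, le_div_iff₀ hc, mul_comm]
    have h1 := hj (e.symm v)
    have h2 : j (e.symm v) = v := by
      have := e.apply_symm_apply v
      exact congrArg Subtype.val this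
    rw [h2] at h1
    exact h1
  let w'' := w'.mkContinuous (‖w‖ * c⁻¹) hb
  obtain ⟨z, hz, _⟩ := exists_extension_norm_eq _ w''
  refine ⟨z, fun y => ?_⟩
  have h1 := hz (e y)
  have h2 : w'' (e y) = w y := by
    show w (e.symm (e y)) = w y
    rw [e.symm_apply_apply]
  rw [h2] at h1
  exact h1

/-- non-reflexive subspaces of the dual of the James tree space -/
theorem exists_data {Y : Type} [NormedAddCommGroup Y] [NormedSpace ℝ Y] [CompleteSpace Y]
    (j : Y →L[ℝ] DR) (c : ℝ) (hc : 0 < c) (hj : ∀ y, c * ‖y‖ ≤ ‖j y‖)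
    (hr : ¬ Function.Surjective (NormedSpace.inclusionInDoubleDual ℝ Y)) :
    ∃ (η g : DR) (γ : ℕ → Bool), Lam γ g ≠ 0 ∧ ∀ (N : ℕ) (ε : ℝ), 0 < ε →
      ∃ k ∈ convexHull ℝ ((fun m => η + g.comp (PP m)) '' Set.Ici N), ∃ y : Y, ‖j y - k‖ < ε := by
  unfold Function.Surjective at hr
  push Not at hr
  obtain ⟨Φ, hΦ⟩ := hr
  let Θ : StrongDual ℝ DR →ₗ[ℝ] ℝ :=
    { toFun := fun z => Φ (z.comp j)
      map_add' := fun z w => by
        rw [← map_add]
        rfl
      map_smul' := fun a z => by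
        rw [RingHom.id_apply, ← map_smul]
        rfl }
  have hΘ : ∀ w, |Θ w| ≤ (‖Φ‖ * ‖j‖) * ‖w‖ := by
    intro w
    show |Φ (w.comp j)| ≤ _
    refine (Φ.le_opNorm _).trans ?_
    rw [mul_assoc]
    refine mul_le_mul_of_nonneg_left ?_ (norm_nonneg _)
    rw [mul_comm]
    exact ContinuousLinearMap.opNorm_comp_le _ _
  obtain ⟨η, g, hηg⟩ := exists_seq Θ (‖Φ‖ * ‖j‖) (by positivity) hΘ
  refine ⟨η, g, ?_⟩
  have hnear : ∀ (N : ℕ) (ε : ℝ), 0 < ε →
      ∃ k ∈ convexHull ℝ ((fun m => η + g.comp (PP m)) '' Set.Ici N), ∃ y : Y, ‖j y - k‖ < ε := by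
    intro N ε hε
    obtain ⟨k, hk, _, ⟨y, rfl⟩, hy⟩ := exists_near (LinearMap.range (j : Y →ₗ[ℝ] DR)) (fun m => η + g.comp (PP m))
      (by
        intro z hz
        have h1 := hηg z
        have h2 : Θ z = 0 := by
          show Φ (z.comp j) = 0
          have h3 : z.comp j = 0 := by
            ext y
            exact hz (j y) ⟨y, rfl⟩
          rw [h3, map_zero]
        rwa [h2] at h1) N hε
    exact ⟨k, hk, y, hy⟩
  by_contra hc'
  push Not at hc'
  have hg : ∀ γ, Lam γ g = 0 := by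
    intro γ
    by_contra hne
    obtain ⟨N, ε, hε, h⟩ := hc' γ hne
    obtain ⟨k, hk, y, hky⟩ := hnear N ε hε
    exact absurd hky (not_lt.2 (h k hk y))
  have hclosed : IsClosed (Set.range j) := by
    have : AntilipschitzWith (Real.toNNReal c⁻¹) j := by
      apply AddMonoidHomClass.antilipschitz_of_bound
      intro y
      rw [Real.coe_toNNReal _ (by positivity), inv_mul_eq_div, le_div_iff₀ hc, mul_comm]
      exact hj y
    exact this.isClosed_range j.uniformContinuous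
  have hmem : η + g ∈ Set.range j := by
    have h1 : η + g ∈ closure (Set.range j) := by
      rw [Metric.mem_closure_iff]
      intro ε hε
      obtain ⟨N, hN⟩ := comp_PP_near g hg (show 0 < ε / 3 by positivity)
      obtain ⟨k, hk, y, hky⟩ := hnear N (ε / 3) (show 0 < ε / 3 by positivity)
      refine ⟨j y, ⟨y, rfl⟩, ?_⟩
      have h2 : convexHull ℝ ((fun m => η + g.comp (PP m)) '' Set.Ici N) ⊆ Metric.closedBall (η + g) (ε / 3) := by
        apply convexHull_min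
        · rintro _ ⟨m, hm, rfl⟩
          rw [mem_closedBall_iff_norm]
          have h3 : η + g.comp (PP m) - (η + g) = g.comp (PP m) - g := by abel
          show ‖η + g.comp (PP m) - (η + g)‖ ≤ ε / 3
          rw [h3]
          exact hN m hm
        · exact convex_closedBall _ _
      have h3 := h2 hk
      rw [mem_closedBall_iff_norm] at h3
      rw [dist_eq_norm]
      have h4 : η + g - j y = -(j y - k) - (k - (η + g)) := by abel
      rw [h4]
      refine (norm_sub_le _ _).trans_lt ?_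
      rw [norm_neg]
      linarith
    rwa [hclosed.closure_eq] at h1
  obtain ⟨y0, hy0⟩ := hmem
  apply hΦ y0
  ext w
  obtain ⟨z, hz⟩ := ext_embed j c hc hj w
  have h1 := hηg z
  have h2 : Tendsto (fun m => z (η + g.comp (PP m))) atTop (𝓝 (z (η + g))) := by
    refine (z.continuous.tendsto _).comp ?_
    refine tendsto_const_nhds.add ?_
    rw [tendsto_iff_norm_sub_tendsto_zero, Metric.tendsto_atTop]
    intro ε hε
    obtain ⟨N, hN⟩ := comp_PP_near g hg (half_pos hε)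
    refine ⟨N, fun n hn => ?_⟩
    rw [Real.dist_eq, sub_zero, abs_of_nonneg (norm_nonneg _)]
    linarith [hN n hn]
  have h3 := tendsto_nhds_unique h1 h2
  have h4 : z.comp j = w := by
    ext v
    exact hz v
  have h5 : Θ z = Φ w := by
    show Φ (z.comp j) = Φ w
    rw [h4]
  rw [← h5, h3, ← hy0, hz]
  rfl

end Q99.JTS
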