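import Pool.Agent.H511R3.JT.E
import Pool.Agent.H973R3.JT.C1

/-!
# Chains of nodes, sequences of bounded quadratic variation and level blocks in the James tree space
-/

set_option autoImplicit false
open Filter Topology Finset
open scoped ENNReal

namespace Q99.JTS

open Pool.Agent.H585R4.JT Pool.Agent.H511R3.JT

/-- the real James tree space of the library (without the coordinate of the root) -/
abbrev VR := V ℝ

/-! ### quadratic variation -/

/-- the quadratic variation over disjoint intervals of integers is at most `C ^ 2` -/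
def QV (s : ℕ → ℝ) (C : ℝ) : Prop :=
  ∀ P : Finset (ℕ × ℕ), (∀ p ∈ P, p.1 ≤ p.2) →
    (∀ p ∈ P, ∀ q ∈ P, p ≠ q → ∀ k, ¬ ((p.1 ≤ k ∧ k < p.2) ∧ (q.1 ≤ k ∧ k < q.2))) →
    ∑ p ∈ P, (s p.2 - s p.1) ^ 2 ≤ C ^ 2

theorem QV.sum_le {s : ℕ → ℝ} {C : ℝ} (h : QV s C) {ι : Type*} (S : Finset ι) (P : ι → ℕ × ℕ)
    (hP : ∀ i ∈ S, (P i).1 ≤ (P i).2)
    (hd : ∀ i ∈ S, ∀ j ∈ S, i ≠ j → ∀ k, ¬ (((P i).1 ≤ k ∧ k < (P i).2) ∧ ((P j).1 ≤ k ∧ k < (P j).2))) :
    ∑ i ∈ S, (s (P i).2 - s (P i).1) ^ 2 ≤ C ^ 2 := by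
  classical
  set S' := S.filter (fun i => (P i).1 ≠ (P i).2) with hS'
  have h1 : ∑ i ∈ S, (s (P i).2 - s (P i).1) ^ 2 = ∑ i ∈ S', (s (P i).2 - s (P i).1) ^ 2 := by
    symm
    apply Finset.sum_subset (Finset.filter_subset _ _)
    intro i hi hni
    have : (P i).1 = (P i).2 := by
      by_contra hne
      exact hni (Finset.mem_filter.2 ⟨hi, hne⟩)
    rw [this, sub_self]
    norm_num
  have hinj : Set.InjOn P S' := by
    intro i hi j hj hij
    by_contra hne
    have hi' := Finset.mem_filter.1 hi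
    have hj' := Finset.mem_filter.1 hj
    have h2 : (P i).1 < (P i).2 := lt_of_le_of_ne (hP i hi'.1) hi'.2
    refine hd i hi'.1 j hj'.1 hne (P i).1 ⟨⟨le_rfl, h2⟩, ?_⟩
    rw [← hij]
    exact ⟨le_rfl, h2⟩
  have h2 : ∑ i ∈ S', (s (P i).2 - s (P i).1) ^ 2 = ∑ p ∈ S'.image P, (s p.2 - s p.1) ^ 2 := by
    rw [Finset.sum_image (fun i hi j hj h => hinj hi hj h)]
  rw [h1, h2]
  apply h
  · intro p hp
    obtain ⟨i, hi, rfl⟩ := Finset.mem_image.1 hp
    exact hP i (Finset.mem_filter.1 hi).1
  · intro p hp q hq hne t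
    obtain ⟨i, hi, rfl⟩ := Finset.mem_image.1 hp
    obtain ⟨j, hj, rfl⟩ := Finset.mem_image.1 hq
    exact hd i (Finset.mem_filter.1 hi).1 j (Finset.mem_filter.1 hj).1 (fun h => hne (by rw [h])) t

/-! ### chains -/

/-- an increasing sequence of nodes, none of them the root -/
structure Chain (ν : ℕ → Nd) : Prop where
  lt_length : ∀ j, j < (ν j).length
  suffix : ∀ i j, i ≤ j → ν i <:+ ν j

theorem Chain.exists_not {ν : ℕ → Nd} (h : Chain ν) (t : Nd) : ∃ j, ¬ ν j <:+ t := by
  refine ⟨t.length, fun hs => ?_⟩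
  have h1 := hs.length_le
  have h2 := h.lt_length t.length
  omega

open Classical in
/-- the number of members of the chain below the node `t` -/
noncomputable def cnt {ν : ℕ → Nd} (h : Chain ν) (t : Nd) : ℕ := Nat.find (h.exists_not t)

theorem lt_cnt {ν : ℕ → Nd} (h : Chain ν) {t : Nd} {j : ℕ} : j < cnt h t ↔ ν j <:+ t := by
  classical
  unfold cnt
  rw [Nat.lt_find_iff]
  constructor
  · intro h1
    have := h1 j le_rfl
    rwa [not_not] at this
  · intro h1 m hm
    rw [not_not]
    exact (h.suffix m j hm).trans h1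

theorem cnt_nil {ν : ℕ → Nd} (h : Chain ν) : cnt h [] = 0 := by
  by_contra hc
  have h1 : 0 < cnt h [] := Nat.pos_of_ne_zero hc
  rw [lt_cnt] at h1
  have h2 := h1.length_le
  have h3 := h.lt_length 0
  simp at h2
  rw [h2] at h3
  simp at h3

theorem cnt_mono {ν : ℕ → Nd} (h : Chain ν) {a b : Nd} (hab : a <:+ b) : cnt h a ≤ cnt h b := by
  by_contra hc
  push Not at hc
  have h1 := (lt_cnt h).1 hc
  have h2 := (lt_cnt h).2 (h1.trans hab)
  exact lt_irrefl _ h2

theorem cnt_inn {ν : ℕ → Nd} (h : Chain ν) {a b : Nd} (hab : a <:+ b) {k : ℕ} (h1 : cnt h a ≤ k)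
    (h2 : k < cnt h b) : Inn (ν k) (a, b) := by
  have h3 := (lt_cnt h).1 h2
  have h4 : ¬ ν k <:+ a := fun hk => absurd ((lt_cnt h).2 hk) (not_lt.2 h1)
  have h5 : a <:+ ν k := by
    rcases suffix_total hab h3 with h6 | h6
    · exact h6
    · exact absurd h6 h4
  exact ⟨h5, fun he => h4 (he ▸ List.suffix_refl _), h3⟩

theorem cnt_self {ν : ℕ → Nd} (h : Chain ν) (hinj : ∀ i j, i < j → ν i ≠ ν j) (j : ℕ) : cnt h (ν j) = j + 1 := by
  apply le_antisymm
  · by_contra hc
    push Not at hc
    have h1 := (lt_cnt h).1 hc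
    have h2 := h.suffix j (j + 1) (Nat.le_succ j)
    exact hinj j (j + 1) (Nat.lt_succ_self j) (h2.eq_of_length (le_antisymm h2.length_le h1.length_le))
  · exact (lt_cnt h).2 (List.suffix_refl _)

theorem chain_norm {ν : ℕ → Nd} (h : Chain ν) {s : ℕ → ℝ} {C : ℝ} (hC : 0 ≤ C) (hs : QV s C) :
    ∃ x : VR, (∀ t, ev t x = s (cnt h t) - s 0) ∧ ‖x‖ ≤ C := by
  apply exists_mk (fun t => s (cnt h t) - s 0)
  · show s (cnt h []) - s 0 = 0
    rw [cnt_nil, sub_self]
  · exact hC
  · intro F hF
    have h1 : ∀ p ∈ F, ‖(s (cnt h p.2) - s 0) - (s (cnt h p.1) - s 0)‖ ^ 2 =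
        (s (cnt h p.2) - s (cnt h p.1)) ^ 2 := by
      intro p _
      rw [Real.norm_eq_abs, sq_abs]
      ring
    rw [Finset.sum_congr rfl h1]
    apply hs.sum_le F (fun p => (cnt h p.1, cnt h p.2))
    · intro p hp
      exact cnt_mono h (hF.1 p hp)
    · rintro p hp q hq hne k ⟨⟨h2, h3⟩, h4, h5⟩
      exact hF.2 p hp q hq hne (ν k) ⟨cnt_inn h (hF.1 p hp) h2 h3, cnt_inn h (hF.1 q hq) h4 h5⟩

/-- an operator built from a chain and a sequence of functionals -/
theorem chain_op {ν : ℕ → Nd} (h : Chain ν) (s : ℕ → StrongDual ℝ VR) {C : ℝ} (hC : 0 ≤ C)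
    (hs : ∀ x : VR, QV (fun n => s n x) (C * ‖x‖)) :
    ∃ T : VR →L[ℝ] VR, (∀ x t, ev t (T x) = s (cnt h t) x - s 0 x) ∧ ∀ x, ‖T x‖ ≤ C * ‖x‖ := by
  have h1 : ∀ x : VR, ∃ y : VR, (∀ t, ev t y = s (cnt h t) x - s 0 x) ∧ ‖y‖ ≤ C * ‖x‖ :=
    fun x => chain_norm h (by positivity) (hs x)
  choose T hT1 hT2 using h1
  let L : VR →ₗ[ℝ] VR :=
    { toFun := T
      map_add' := by
        intro x y
        apply ext_ev
        intro t
        rw [map_add, hT1, hT1, hT1, map_add, map_add]
        ring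
      map_smul' := by
        intro c x
        apply ext_ev
        intro t
        rw [RingHom.id_apply, map_smul, hT1, hT1, map_smul, map_smul, smul_eq_mul, smul_eq_mul, smul_eq_mul]
        ring }
  exact ⟨L.mkContinuous C hT2, fun x t => hT1 x t, fun x => hT2 x⟩

/-! ### level blocks -/

theorem blocks {ι : Type*} (S : Finset ι) (p q : ι → ℕ) (hpq : ∀ i ∈ S, p i ≤ q i)
    (hd : ∀ i ∈ S, ∀ j ∈ S, i ≠ j → ∀ k, ¬ ((p i < k ∧ k ≤ q i) ∧ (p j < k ∧ k ≤ q j))) (x : VR) :
    ∑ i ∈ S, ‖PP (q i) x - PP (p i) x‖ ^ 2 ≤ ‖x‖ ^ 2 := by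
  apply lower_two S x (fun i => PP (q i) x - PP (p i) x) (fun i t => p i < t.length ∧ t.length ≤ q i)
  · intro i hi j hj hne t ht
    exact hd i hi j hj hne t.length ht
  · intro i hi a b hab
    have hpqi := hpq i hi
    rw [map_sub, map_sub, ev_PP, ev_PP, ev_PP, ev_PP]
    by_cases ha : q i ≤ a.length
    · refine ⟨a, a, List.suffix_refl a, ?_, ?_⟩
      · intro t ht
        rw [inn_iff (List.suffix_refl a)] at ht
        exact absurd ht.1.length_le (not_le.2 ht.2)
      · rw [tr_eq_of_suffix hab ha, tr_eq_of_suffix hab (hpqi.trans ha)]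
        ring
    · push Not at ha
      by_cases ha' : p i ≤ a.length
      · have hs : a <:+ tr (q i) b := suffix_tr hab ha.le
        refine ⟨a, tr (q i) b, hs, ?_, ?_⟩
        · intro t ht
          rw [inn_iff hs] at ht
          rw [inn_iff hab]
          have h1 := ht.1.length_le
          rw [length_tr] at h1
          have h2 := ht.2
          exact ⟨⟨ht.1.trans (tr_suffix _ _), h2⟩, by omega, by omega⟩
        · rw [tr_eq_of_suffix hab ha', tr_of_le ha.le]
          ring
      · push Not at ha'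
        have hs : tr (p i) b <:+ tr (q i) b := by
          refine suffix_tr (tr_suffix _ _) ?_
          rw [length_tr]
          omega
        refine ⟨tr (p i) b, tr (q i) b, hs, ?_, ?_⟩
        · intro t ht
          rw [inn_iff hs] at ht
          rw [inn_iff hab]
          have h1 := ht.1.length_le
          rw [length_tr] at h1
          have h2 := ht.2
          rw [length_tr] at h2
          have h3 := hab.length_le
          have h4 := (ht.1.trans (tr_suffix (q i) b)).length_le
          exact ⟨⟨ht.1.trans (tr_suffix _ _), by omega⟩, by omega, by omega⟩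
        · rw [tr_of_le ha'.le, tr_of_le (ha'.le.trans hpqi)]
          ring

/-- the set of truncations at the levels in a set of integers -/
def PS (F : Set ℕ) : Set (VR →L[ℝ] VR) := (fun m => (PP m : VR →L[ℝ] VR)) '' F

theorem blocks_hull_aux {ι : Type*} (S : Finset ι) (F : ℕ → Set ℕ)
    (hF : ∀ n n', n < n' → ∀ m ∈ F n, ∀ m' ∈ F n', m < m') (p q : ι → ℕ) (hpq : ∀ i ∈ S, p i ≤ q i)
    (hd : ∀ i ∈ S, ∀ j ∈ S, i ≠ j → ∀ k, ¬ ((p i ≤ k ∧ k < q i) ∧ (p j ≤ k ∧ k < q j))) (x : VR)
    (T : Finset ℕ) : ∀ A : ℕ → (VR →L[ℝ] VR), (∀ n ∈ T, A n ∈ convexHull ℝ (PS (F n))) →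
      (∀ n, n ∉ T → A n ∈ PS (F n)) → ∑ i ∈ S, ‖A (q i) x - A (p i) x‖ ^ 2 ≤ ‖x‖ ^ 2 := by
  classical
  induction T using Finset.induction_on with
  | empty =>
    intro A _ hA
    have h1 : ∀ n, ∃ m ∈ F n, (PP m : VR →L[ℝ] VR) = A n := fun n => hA n (Finset.notMem_empty n)
    choose m hm1 hm2 using h1
    have h2 : ∀ i ∈ S, ‖A (q i) x - A (p i) x‖ ^ 2 = ‖PP (m (q i)) x - PP (m (p i)) x‖ ^ 2 := by
      intro i _
      rw [← hm2, ← hm2]
    rw [Finset.sum_congr rfl h2]
    have hmono : ∀ a b, a ≤ b → m a ≤ m b := by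
      intro a b hab
      rcases hab.eq_or_lt with h | h
      · rw [h]
      · exact (hF a b h _ (hm1 a) _ (hm1 b)).le
    apply blocks S (fun i => m (p i)) (fun i => m (q i))
    · intro i hi
      exact hmono _ _ (hpq i hi)
    · rintro i hi j hj hne k ⟨⟨h3, h4⟩, h5, h6⟩
      have h7 : p i < q i := by
        by_contra hc
        push Not at hc
        have := hmono _ _ hc
        omega
      have h8 : p j < q j := by
        by_contra hc
        push Not at hc
        have := hmono _ _ hc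
        omega
      have h9 : q i ≤ p j ∨ q j ≤ p i := by
        by_contra hc
        push Not at hc
        refine hd i hi j hj hne (max (p i) (p j)) ⟨⟨le_max_left _ _, ?_⟩, le_max_right _ _, ?_⟩
        · exact max_lt h7 hc.1
        · exact max_lt hc.2 h8
      rcases h9 with h9 | h9
      · have := hmono _ _ h9
        omega
      · have := hmono _ _ h9
        omega
  | insert n0 T hn0 ih =>
    intro A hA1 hA2
    let Q : (VR →L[ℝ] VR) → PiLp 2 (fun _ : S => VR) := fun B =>
      WithLp.toLp 2 (fun i => (Function.update A n0 B) (q i) x - (Function.update A n0 B) (p i) x)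
    have hQ : ∀ B, ‖Q B‖ ^ 2 =
        ∑ i ∈ S, ‖(Function.update A n0 B) (q i) x - (Function.update A n0 B) (p i) x‖ ^ 2 := by
      intro B
      rw [PiLp.norm_sq_eq_of_L2]
      exact Finset.sum_coe_sort S
        (fun i => ‖(Function.update A n0 B) (q i) x - (Function.update A n0 B) (p i) x‖ ^ 2)
    have hset : convexHull ℝ (PS (F n0)) ⊆ {B | ‖Q B‖ ≤ ‖x‖} := by
      apply convexHull_min
      · rintro B hB
        have h1 := ih (Function.update A n0 B) (by
          intro n hn
          have hne : n ≠ n0 := fun h => hn0 (h ▸ hn)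
          rw [Function.update_of_ne hne]
          exact hA1 n (Finset.mem_insert_of_mem hn)) (by
          intro n hn
          by_cases hne : n = n0
          · subst hne
            rw [Function.update_self]
            exact hB
          · rw [Function.update_of_ne hne]
            exact hA2 n (fun h => by
              rcases Finset.mem_insert.1 h with h | h
              · exact hne h
              · exact hn h))
        rw [← hQ] at h1
        exact lesq h1 (norm_nonneg _)
      · intro B hB B' hB' a b ha hb hab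
        have h1 : Q (a • B + b • B') = a • Q B + b • Q B' := by
          apply PiLp.ext
          intro i
          show (Function.update A n0 (a • B + b • B')) (q i) x - (Function.update A n0 (a • B + b • B')) (p i) x =
            a • ((Function.update A n0 B) (q i) x - (Function.update A n0 B) (p i) x) +
            b • ((Function.update A n0 B') (q i) x - (Function.update A n0 B') (p i) x)
          have h2 : ∀ n, (Function.update A n0 (a • B + b • B')) n x =
              a • (Function.update A n0 B) n x + b • (Function.update A n0 B') n x := by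
            intro n
            by_cases hne : n = n0
            · subst hne
              rw [Function.update_self, Function.update_self, Function.update_self]
              rfl
            · rw [Function.update_of_ne hne, Function.update_of_ne hne, Function.update_of_ne hne, ← add_smul,
                hab, one_smul]
          rw [h2, h2, smul_sub, smul_sub]
          abel
        show ‖Q (a • B + b • B')‖ ≤ ‖x‖
        rw [h1]
        have hB1 : ‖Q B‖ ≤ ‖x‖ := hB
        have hB2 : ‖Q B'‖ ≤ ‖x‖ := hB'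
        calc ‖a • Q B + b • Q B'‖ ≤ ‖a • Q B‖ + ‖b • Q B'‖ := norm_add_le _ _
          _ = a * ‖Q B‖ + b * ‖Q B'‖ := by
            rw [norm_smul, norm_smul, Real.norm_eq_abs, Real.norm_eq_abs, abs_of_nonneg ha, abs_of_nonneg hb]
          _ ≤ a * ‖x‖ + b * ‖x‖ := by gcongr
          _ = ‖x‖ := by rw [← add_mul, hab, one_mul]
    have h3 : ‖Q (A n0)‖ ≤ ‖x‖ := hset (hA1 n0 (Finset.mem_insert_self _ _))
    have h4 : ‖Q (A n0)‖ ^ 2 ≤ ‖x‖ ^ 2 := pow_le_pow_left₀ (norm_nonneg _) h3 2
    rw [hQ, Function.update_eq_self] at h4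
    exact h4

/-- level blocks for averages of truncations -/
theorem blocks_hull {ι : Type*} (S : Finset ι) (F : ℕ → Set ℕ) (hne : ∀ n, (F n).Nonempty)
    (hF : ∀ n n', n < n' → ∀ m ∈ F n, ∀ m' ∈ F n', m < m') (p q : ι → ℕ) (hpq : ∀ i ∈ S, p i ≤ q i)
    (hd : ∀ i ∈ S, ∀ j ∈ S, i ≠ j → ∀ k, ¬ ((p i ≤ k ∧ k < q i) ∧ (p j ≤ k ∧ k < q j))) (x : VR)
    (A : ℕ → (VR →L[ℝ] VR)) (hA : ∀ n, A n ∈ convexHull ℝ (PS (F n))) :
    ∑ i ∈ S, ‖A (q i) x - A (p i) x‖ ^ 2 ≤ ‖x‖ ^ 2 := by
  classical
  choose m hm using hne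
  obtain ⟨T, hT⟩ : ∃ T : Finset ℕ, T = S.image p ∪ S.image q := ⟨_, rfl⟩
  obtain ⟨A', hA'⟩ : ∃ A' : ℕ → (VR →L[ℝ] VR), A' = fun n => if n ∈ T then A n else PP (m n) := ⟨_, rfl⟩
  have h1 := blocks_hull_aux S F hF p q hpq hd x T A' (by
    intro n hn
    rw [hA']
    show (if n ∈ T then A n else PP (m n)) ∈ _
    rw [if_pos hn]
    exact hA n) (by
    intro n hn
    rw [hA']
    show (if n ∈ T then A n else PP (m n)) ∈ _
    rw [if_neg hn]
    exact ⟨m n, hm n, rfl⟩)
  have h2 : ∀ i ∈ S, ‖A' (q i) x - A' (p i) x‖ ^ 2 = ‖A (q i) x - A (p i) x‖ ^ 2 := by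
    intro i hi
    have e1 : A' (q i) = A (q i) := by
      rw [hA']
      show (if q i ∈ T then A (q i) else PP (m (q i))) = _
      rw [if_pos]
      rw [hT]
      exact Finset.mem_union_right _ (Finset.mem_image_of_mem _ hi)
    have e2 : A' (p i) = A (p i) := by
      rw [hA']
      show (if p i ∈ T then A (p i) else PP (m (p i))) = _
      rw [if_pos]
      rw [hT]
      exact Finset.mem_union_left _ (Finset.mem_image_of_mem _ hi)
    rw [e1, e2]
  rw [Finset.sum_congr rfl h2] at h1
  exact h1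

end Q99.JTS
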