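import Mathlib

/-!
# The James tree space and the James space as completions
-/

set_option autoImplicit false

namespace Q99.JTS

/-- The norm of a finitely supported function given by a class `𝒮` of finite sets: the supremum over finite
families `P` of pairwise disjoint members of `𝒮` of `(∑ S ∈ P, (∑ i ∈ S, x i) ^ 2) ^ (1 / 2)`. -/
noncomputable def famNorm {ι : Type} (𝒮 : Finset ι → Prop) (x : ι →₀ ℝ) : ℝ :=
  sSup {r | ∃ P : Finset (Finset ι), (∀ S ∈ P, 𝒮 S) ∧ (∀ S ∈ P, ∀ S' ∈ P, S ≠ S' → Disjoint S S') ∧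
    r = Real.sqrt (∑ S ∈ P, (∑ i ∈ S, x i) ^ 2)}

/-- Segments `{β : α ≤ β ≤ γ}` (with `α ≤ γ`) of the dyadic tree of the finite `0`-`1` sequences ordered by
extension. -/
def IsSegment (S : Finset (List Bool)) : Prop :=
  ∃ α γ : List Bool, α <+: γ ∧ ∀ β, β ∈ S ↔ α <+: β ∧ β <+: γ

/-- Intervals of integers. -/
def IsInterval (I : Finset ℕ) : Prop := ∃ a b : ℕ, I = Finset.Icc a b

/-- The norm of the James tree space on the finitely supported functions on the dyadic tree. -/
noncomputable def jtNorm (x : List Bool →₀ ℝ) : ℝ := famNorm IsSegment x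

/-- The norm of the James space on the finitely supported sequences. -/
noncomputable def jNorm (x : ℕ →₀ ℝ) : ℝ := famNorm IsInterval x

/-- The Banach space `X` with the map `e` is the completion of the space of finitely supported functions on `ι`
with the norm `N`. -/
structure IsCompletion {ι : Type} (N : (ι →₀ ℝ) → ℝ) (X : Type) [NormedAddCommGroup X] [NormedSpace ℝ X]
    (e : (ι →₀ ℝ) →ₗ[ℝ] X) : Prop where
  complete : CompleteSpace X
  norm_eq : ∀ x, ‖e x‖ = N x
  dense : DenseRange e

/-- The norm `N` has a completion. -/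
def HasCompletion {ι : Type} (N : (ι →₀ ℝ) → ℝ) : Prop :=
  ∃ (X : Type) (_ : NormedAddCommGroup X) (_ : NormedSpace ℝ X) (e : (ι →₀ ℝ) →ₗ[ℝ] X), IsCompletion N X e

/-- `F` is isomorphic to a subspace of `E`: there is a bounded linear operator from `F` to `E` which is bounded
below. -/
def Embeds (F E : Type) [NormedAddCommGroup F] [NormedSpace ℝ F] [NormedAddCommGroup E] [NormedSpace ℝ E] : Prop :=
  ∃ T : F →L[ℝ] E, ∃ c : ℝ, 0 < c ∧ ∀ x : F, c * ‖x‖ ≤ ‖T x‖

/-- Every closed subspace of `E` which is not reflexive has a subspace isomorphic to `F`. -/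
def NonReflexiveContain (E F : Type) [NormedAddCommGroup E] [NormedSpace ℝ E] [NormedAddCommGroup F]
    [NormedSpace ℝ F] : Prop :=
  ∀ Y : Submodule ℝ E, IsClosed (Y : Set E) →
    ¬ Function.Surjective (NormedSpace.inclusionInDoubleDual ℝ Y) → Embeds F Y

/-- Every closed subspace of `E` which is not separable has a subspace isomorphic to `F`. -/
def NonSeparableContain (E F : Type) [NormedAddCommGroup E] [NormedSpace ℝ E] [NormedAddCommGroup F]
    [NormedSpace ℝ F] : Prop :=
  ∀ Y : Submodule ℝ E, IsClosed (Y : Set E) → ¬ TopologicalSpace.IsSeparable (Y : Set E) → Embeds F Y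

end Q99.JTS
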