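import Pool.Agent.Q99.JTS.Model

/-!
# Existence of the models
-/

set_option autoImplicit false
open Filter Topology Finset
open scoped ENNReal

namespace Q99.JTS

open Pool.Agent.H585R4.JT Pool.Agent.H511R3.JT

theorem exists_completion {ι : Type} (ρ : ι → Nd) (N : (ι →₀ ℝ) → ℝ) (hN : ∀ x, ‖JJ ρ x‖ = N x) :
    ∃ (X : Type) (_ : NormedAddCommGroup X) (_ : NormedSpace ℝ X) (e : (ι →₀ ℝ) →ₗ[ℝ] X), IsCompletion N X e := by
  obtain ⟨S, hS⟩ : ∃ S : Submodule ℝ VR, S = (LinearMap.range (JJ ρ)).topologicalClosure := ⟨_, rfl⟩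
  have hS' : ∀ v : VR, v ∈ S → v ∈ closure (LinearMap.range (JJ ρ) : Set VR) := by
    intro v hv
    rw [hS] at hv
    exact hv
  have hcl : IsClosed (S : Set VR) := by
    rw [hS]
    exact Submodule.isClosed_topologicalClosure _
  have hmem : ∀ x, JJ ρ x ∈ S := by
    intro x
    rw [hS]
    exact Submodule.le_topologicalClosure _ ⟨x, rfl⟩
  refine ⟨S, inferInstance, inferInstance, (JJ ρ).codRestrict S hmem, hcl.completeSpace_coe, ?_, ?_⟩
  · intro x
    show ‖JJ ρ x‖ = N x
    exact hN x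
  · intro s
    rw [Metric.mem_closure_iff]
    intro ε hε
    have h1 := hS' s s.2
    rw [Metric.mem_closure_iff] at h1
    obtain ⟨_, ⟨x, rfl⟩, hx⟩ := h1 ε hε
    exact ⟨_, ⟨x, rfl⟩, hx⟩

theorem exists_JT : HasCompletion jtNorm := exists_completion rh jtNorm norm_rh

theorem exists_J : HasCompletion jNorm := exists_completion rb jNorm norm_rb

end Q99.JTS
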