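import Pool.Agent.Q99.JTS.Bidual

/-!
# Copies of the dual of the James space in non-reflexive subspaces of the dual of the James tree space
-/

set_option autoImplicit false
open Filter Topology Finset
open scoped ENNReal

namespace Q99.JTS

open Pool.Agent.H585R4.JT Pool.Agent.H511R3.JT

/-! ### more on quadratic variation -/

theorem QV.of_tv {s : ℕ → ℝ} {D : ℝ} (hD : 0 ≤ D) (h : ∀ n, ∑ k ∈ range n, |s (k + 1) - s k| ≤ D) : QV s D := by
  classical
  intro P hP hd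
  have hpd : Set.PairwiseDisjoint (P : Set (ℕ × ℕ)) (fun p => Finset.Ico p.1 p.2) := by
    intro p hp q hq hne
    rw [Function.onFun, Finset.disjoint_left]
    intro k hk hk'
    rw [Finset.mem_Ico] at hk hk'
    exact hd p hp q hq hne k ⟨hk, hk'⟩
  obtain ⟨a, ha⟩ : ∃ a : ℕ × ℕ → ℝ, a = fun p => ∑ k ∈ Finset.Ico p.1 p.2, |s (k + 1) - s k| := ⟨_, rfl⟩
  have ha0 : ∀ p, 0 ≤ a p := by
    intro p
    rw [ha]
    exact Finset.sum_nonneg fun k _ => abs_nonneg _
  have hsum : ∑ p ∈ P, a p ≤ D := by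
    rw [ha]
    rw [← Finset.sum_biUnion hpd]
    refine le_trans ?_ (h (P.sup (fun p => p.2)))
    refine Finset.sum_le_sum_of_subset_of_nonneg ?_ (fun k _ _ => abs_nonneg _)
    intro k hk
    rw [Finset.mem_biUnion] at hk
    obtain ⟨p, hp, hk⟩ := hk
    rw [Finset.mem_Ico] at hk
    rw [Finset.mem_range]
    exact lt_of_lt_of_le hk.2 (Finset.le_sup (f := fun p : ℕ × ℕ => p.2) hp)
  have hle : ∀ p ∈ P, (s p.2 - s p.1) ^ 2 ≤ a p * D := by
    intro p hp
    have h1 : s p.2 - s p.1 = ∑ k ∈ Finset.Ico p.1 p.2, (s (k + 1) - s k) :=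
      (Finset.sum_Ico_sub s (hP p hp)).symm
    have h2 : |s p.2 - s p.1| ≤ a p := by
      rw [h1, ha]
      exact Finset.abs_sum_le_sum_abs _ _
    have h3 : a p ≤ D := (Finset.single_le_sum (fun q _ => ha0 q) hp).trans hsum
    rw [← sq_abs]
    have h4 := abs_nonneg (s p.2 - s p.1)
    nlinarith [ha0 p]
  refine (Finset.sum_le_sum hle).trans ?_
  rw [← Finset.sum_mul]
  nlinarith

theorem QV.add {s t : ℕ → ℝ} {A B : ℝ} (hA : 0 ≤ A) (hB : 0 ≤ B) (hs : QV s A) (ht : QV t B) :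
    QV (fun n => s n + t n) (A + B) := by
  intro P hP hd
  have h1 := hs P hP hd
  have h2 := ht P hP hd
  have h3 : ∑ p ∈ P, (s p.2 - s p.1) * (t p.2 - t p.1) ≤ A * B := by
    have h4 := Finset.sum_mul_sq_le_sq_mul_sq P (fun p => s p.2 - s p.1) (fun p => t p.2 - t p.1)
    have h5 : (∑ p ∈ P, (s p.2 - s p.1) * (t p.2 - t p.1)) ^ 2 ≤ (A * B) ^ 2 := by
      refine h4.trans ?_
      rw [mul_pow]
      exact mul_le_mul h1 h2 (Finset.sum_nonneg fun _ _ => sq_nonneg _) (sq_nonneg _)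
    exact lesq h5 (by positivity)
  have h6 : ∑ p ∈ P, ((s p.2 + t p.2) - (s p.1 + t p.1)) ^ 2 =
      ∑ p ∈ P, (s p.2 - s p.1) ^ 2 + 2 * ∑ p ∈ P, (s p.2 - s p.1) * (t p.2 - t p.1) +
        ∑ p ∈ P, (t p.2 - t p.1) ^ 2 := by
    rw [Finset.mul_sum, ← Finset.sum_add_distrib, ← Finset.sum_add_distrib]
    exact Finset.sum_congr rfl fun p _ => by ring
  show ∑ p ∈ P, ((s p.2 + t p.2) - (s p.1 + t p.1)) ^ 2 ≤ _
  rw [h6]
  nlinarith

theorem QV.const (c : ℝ) {A : ℝ} : QV (fun _ => c) A := by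
  intro P _ _
  rw [Finset.sum_eq_zero (fun p _ => by
    show (c - c) ^ 2 = 0
    ring)]
  positivity

/-- the all-`false` branch -/
abbrev dl : ℕ → Bool := fun _ => false

theorem QV.branch (γ : ℕ → Bool) (x : VR) : QV (fun n => ev (bn γ n) x) ‖x‖ := by
  intro P hP hd
  have h1 : ∀ p ∈ P, (ev (bn γ p.2) x - ev (bn γ p.1) x) ^ 2 = ‖ev (bn γ p.2) x - ev (bn γ p.1) x‖ ^ 2 := by
    intro p _
    rw [Real.norm_eq_abs, sq_abs]
  show ∑ p ∈ P, (ev (bn γ p.2) x - ev (bn γ p.1) x) ^ 2 ≤ ‖x‖ ^ 2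
  rw [Finset.sum_congr rfl h1]
  apply Pool.Agent.H585R4.JT.sum_le x P (fun p => (bn γ p.1, bn γ p.2)) (fun p hp => bn_suffix γ (hP p hp))
  rintro p hp q hq hne t ⟨h2, h3⟩
  rw [inn_iff (bn_suffix γ (hP p hp)), length_bn] at h2
  rw [inn_iff (bn_suffix γ (hP q hq)), length_bn] at h3
  have h4 := h2.1.length_le
  have h5 := h3.1.length_le
  rw [length_bn] at h4 h5
  have h6 := h2.2
  have h7 := h3.2
  refine hd p hp q hq hne (t.length - 1) ⟨⟨by omega, by omega⟩, by omega, by omega⟩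

theorem ev_bn_le (γ : ℕ → Bool) (k : ℕ) (x : VR) : |ev (bn γ (k + 1)) x - ev (bn γ k) x| ≤ ‖x‖ := by
  rw [← Real.norm_eq_abs]
  exact path_le x (bn_suffix γ (Nat.le_succ k))

/-! ### operators between branches -/

theorem chain_bn (γ : ℕ → Bool) (l : ℕ → ℕ) (hl : StrictMono l) (hl0 : ∀ n, n < l n) : Chain (fun n => bn γ (l n)) :=
  ⟨fun n => by
    show n < (bn γ (l n)).length
    rw [length_bn]
    exact hl0 n, fun i k hik => bn_suffix γ (hl.monotone hik)⟩

/-- the operator taking the `k`-th basis vector of the all-`false` branch to the `l k`-th one of `γ` -/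
theorem exists_W (γ : ℕ → Bool) (l : ℕ → ℕ) (hl : StrictMono l) (hl0 : ∀ n, n < l n) :
    ∃ W : VR →L[ℝ] VR, (∀ x t, ev t (W x) = ev (bn dl (cnt (chain_bn γ l hl hl0) t)) x) ∧ ∀ x, ‖W x‖ ≤ ‖x‖ := by
  obtain ⟨W, h1, h2⟩ := chain_op (chain_bn γ l hl hl0) (fun n => ev (bn dl n)) (C := 1) zero_le_one (by
    intro x
    rw [one_mul]
    exact QV.branch dl x)
  refine ⟨W, fun x t => ?_, fun x => by simpa using h2 x⟩
  rw [h1]
  show ev (bn dl (cnt (chain_bn γ l hl hl0) t)) x - ev [] x = _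
  rw [ev_nil, sub_zero]

/-- the increments along the all-`false` branch -/
noncomputable def inc1 (k : ℕ) (x : VR) : ℝ := ev (bn dl (k + 1)) x - ev (bn dl k) x

theorem sum_inc1 (n : ℕ) (x : VR) : ∑ k ∈ range n, inc1 k x = ev (bn dl n) x := by
  have h1 : ∑ k ∈ range n, inc1 k x = ev (bn dl n) x - ev (bn dl 0) x :=
    Finset.sum_range_sub (fun k => ev (bn dl k) x) n
  rw [h1]
  show ev (bn dl n) x - ev [] x = _
  rw [ev_nil, sub_zero]

theorem PP_W {γ : ℕ → Bool} {l : ℕ → ℕ} (hl : StrictMono l) (hl0 : ∀ n, n < l n) {W : VR →L[ℝ] VR}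
    (hW : ∀ x t, ev t (W x) = ev (bn dl (cnt (chain_bn γ l hl hl0) t)) x) (n m : ℕ)
    (hnm : ∀ k, l k ≤ m ↔ k < n) (x : VR) :
    PP m (W x) = ∑ k ∈ range n, inc1 k x • (ee (bn γ (l k)) : VR) := by
  apply ext_ev
  intro t
  rw [ev_PP, hW, map_sum]
  have h1 : cnt (chain_bn γ l hl hl0) (tr m t) = min n (cnt (chain_bn γ l hl hl0) t) := by
    apply eq_of_forall_lt_iff
    intro k
    rw [lt_cnt, lt_min_iff, lt_cnt]
    constructor
    · intro h
      have h2 := h.length_le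
      rw [length_bn, length_tr] at h2
      exact ⟨(hnm k).1 (by omega), h.trans (tr_suffix _ _)⟩
    · rintro ⟨h2, h3⟩
      exact suffix_tr h3 (by rw [length_bn]; exact (hnm k).2 h2)
  rw [h1]
  have h2 : ∀ k ∈ range n, ev t (inc1 k x • (ee (bn γ (l k)) : VR)) =
      if k < cnt (chain_bn γ l hl hl0) t then inc1 k x else 0 := by
    intro k _
    rw [map_smul, ev_ee, smul_eq_mul]
    by_cases h : k < cnt (chain_bn γ l hl hl0) t
    · rw [if_pos h]
      rw [lt_cnt] at h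
      rw [if_pos ⟨h, bn_ne_nil γ (by have := hl0 k; omega)⟩, mul_one]
    · rw [if_neg h]
      rw [lt_cnt] at h
      rw [if_neg (fun h' => h h'.1), mul_zero]
  rw [Finset.sum_congr rfl h2, ← Finset.sum_filter]
  have h3 : (range n).filter (fun k => k < cnt (chain_bn γ l hl hl0) t) = range (min n (cnt (chain_bn γ l hl hl0) t)) := by
    ext k
    rw [Finset.mem_filter, Finset.mem_range, Finset.mem_range, lt_min_iff]
  rw [h3, sum_inc1]

/-! ### the main construction -/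

theorem main_step {Y : Type} [NormedAddCommGroup Y] [NormedSpace ℝ Y]
    (j : Y →L[ℝ] DR) (η g : DR) (γ : ℕ → Bool)
    (h : ∀ (N : ℕ) (ε : ℝ), 0 < ε →
      ∃ k ∈ convexHull ℝ ((fun m => η + g.comp (PP m)) '' Set.Ici N), ∃ y : Y, ‖j y - k‖ < ε)
    (N : ℕ) (ε : ℝ) (hε : 0 < ε) : ∃ (M l : ℕ) (y : Y) (R : VR →L[ℝ] VR), N ≤ M ∧ M < l ∧
      R ∈ convexHull ℝ (PS (Set.Icc N M)) ∧ ‖j y - (η + g.comp R)‖ < ε ∧ |g (ee (bn γ l)) - Lam γ g| < ε := by
  obtain ⟨k, hk, y, hy⟩ := h N ε hε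
  have h1 : convexHull ℝ ((fun m => η + g.comp (PP m)) '' Set.Ici N) ⊆
      {k | ∃ M, N ≤ M ∧ ∃ R ∈ convexHull ℝ (PS (Set.Icc N M)), k = η + g.comp R} := by
    apply convexHull_min
    · rintro _ ⟨m, hm, rfl⟩
      exact ⟨m, hm, PP m, subset_convexHull ℝ _ ⟨m, ⟨hm, le_rfl⟩, rfl⟩, rfl⟩
    · rintro _ ⟨M, hM, R, hR, rfl⟩ _ ⟨M', hM', R', hR', rfl⟩ a b ha hb hab
      refine ⟨max M M', le_max_of_le_left hM, a • R + b • R', ?_, ?_⟩
      · have h2 : PS (Set.Icc N M) ⊆ PS (Set.Icc N (max M M')) :=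
          Set.image_mono (Set.Icc_subset_Icc_right (le_max_left _ _))
        have h3 : PS (Set.Icc N M') ⊆ PS (Set.Icc N (max M M')) :=
          Set.image_mono (Set.Icc_subset_Icc_right (le_max_right _ _))
        exact (convex_convexHull ℝ _) (convexHull_mono h2 hR) (convexHull_mono h3 hR') ha hb hab
      · ext x
        show a * (η x + g (R x)) + b * (η x + g (R' x)) = η x + g (a • R x + b • R' x)
        rw [map_add, map_smul, map_smul, smul_eq_mul, smul_eq_mul]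
        have h4 : η x = (a + b) * η x := by rw [hab, one_mul]
        linear_combination -h4
  obtain ⟨M, hM, R, hR, hkR⟩ := h1 hk
  have h3 := Lam_lim γ g
  have h4 : ∀ᶠ n in (hyperfilter ℕ : Filter ℕ), |g (ee (bn γ n)) - Lam γ g| < ε := by
    have h5 := (h3.sub_const (Lam γ g)).norm
    rw [sub_self, norm_zero] at h5
    exact h5.eventually (gt_mem_nhds hε)
  obtain ⟨l, hl1, hl2⟩ := (h4.and (hyp_ge (M + 1))).exists
  refine ⟨M, l, y, R, hM, hl2, hR, ?_, hl1⟩
  rw [← hkR]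
  exact hy

/-- projection on the all-`false` branch -/
theorem exists_Pd : ∃ W : VR →L[ℝ] VR,
    (∀ x t, ev t (W x) = ev (bn dl (cnt (chain_bn dl (fun n => n + 1) (fun _ _ h => Nat.succ_lt_succ h)
      Nat.lt_succ_self) t)) x) ∧ ∀ x, ‖W x‖ ≤ ‖x‖ :=
  exists_W dl (fun n => n + 1) (fun _ _ h => Nat.succ_lt_succ h) Nat.lt_succ_self

theorem chD : Chain (fun n => bn dl (n + 1)) :=
  chain_bn dl (fun n => n + 1) (fun _ _ h => Nat.succ_lt_succ h) Nat.lt_succ_self

/-- projection on the all-`false` branch -/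
noncomputable def Pd : VR →L[ℝ] VR := exists_Pd.choose

theorem ev_Pd (x : VR) (t : Nd) : ev t (Pd x) = ev (bn dl (cnt chD t)) x := exists_Pd.choose_spec.1 x t
theorem Pd_le (x : VR) : ‖Pd x‖ ≤ ‖x‖ := exists_Pd.choose_spec.2 x

theorem cnt_bn (n : ℕ) : cnt chD (bn dl n) = n := by
  apply eq_of_forall_lt_iff
  intro k
  rw [lt_cnt]
  constructor
  · intro h
    have := h.length_le
    rw [length_bn, length_bn] at this
    omega
  · intro h
    exact bn_suffix dl h

theorem exists_Xi {Y : Type} [NormedAddCommGroup Y] [NormedSpace ℝ Y] [CompleteSpace Y]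
    (j : Y →L[ℝ] DR) (c : ℝ) (hc : 0 < c) (hj : ∀ y, c * ‖y‖ ≤ ‖j y‖)
    (hr : ¬ Function.Surjective (NormedSpace.inclusionInDoubleDual ℝ Y)) :
    ∃ (Ξ : VR →L[ℝ] VR) (c' : ℝ), 0 < c' ∧ (∀ n, ∃ y : Y, ∀ x, j y x = ev (bn dl n) (Ξ x)) ∧
      ∀ f : DR, (∀ x, f (Pd x) = f x) → c' * ‖f‖ ≤ ‖f.comp Ξ‖ := by
  obtain ⟨η, g, γ, ha, hd⟩ := exists_data j c hc hj hr
  obtain ⟨a, haa⟩ : ∃ a : ℝ, a = Lam γ g := ⟨_, rfl⟩
  rw [← haa] at ha
  have ha0 : 0 < |a| := abs_pos.2 ha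
  obtain ⟨ε, hε⟩ : ∃ ε : ℕ → ℝ, ε = fun n => |a| / 12 * (1 / 2) ^ n := ⟨_, rfl⟩
  have hε0 : ∀ n, 0 < ε n := by
    intro n
    rw [hε]
    positivity
  have hεs : ∀ n, ε (n + 1) ≤ ε n := by
    intro n
    rw [hε]
    show |a| / 12 * (1 / 2) ^ (n + 1) ≤ |a| / 12 * (1 / 2) ^ n
    rw [pow_succ]
    have : 0 < |a| / 12 * (1 / 2) ^ n := by positivity
    nlinarith
  have hεsum : ∀ n, ∑ k ∈ range n, 3 * ε k ≤ |a| / 2 := by
    intro n
    rw [hε, ← Finset.mul_sum, ← Finset.mul_sum]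
    have h1 : ∑ k ∈ range n, (1 / 2 : ℝ) ^ k ≤ 2 := by
      have := sum_geometric_two_le n
      exact this
    nlinarith
  have step := fun N n => main_step j η g γ hd N (ε n) (hε0 n)
  choose M l y R h1 h2 h3 h4 h5 using step
  obtain ⟨N, hN0, hNs⟩ : ∃ N : ℕ → ℕ, N 0 = 0 ∧ ∀ n, N (n + 1) = l (N n) n + 1 :=
    ⟨fun n => Nat.rec 0 (fun n N => l N n + 1) n, rfl, fun n => rfl⟩
  obtain ⟨M', hM'⟩ : ∃ M' : ℕ → ℕ, M' = fun n => M (N n) n := ⟨_, rfl⟩
  obtain ⟨l', hl'⟩ : ∃ l' : ℕ → ℕ, l' = fun n => l (N n) n := ⟨_, rfl⟩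
  obtain ⟨y', hy'⟩ : ∃ y' : ℕ → Y, y' = fun n => y (N n) n := ⟨_, rfl⟩
  obtain ⟨R', hR'⟩ : ∃ R' : ℕ → VR →L[ℝ] VR, R' = fun n => R (N n) n := ⟨_, rfl⟩
  have k1 : ∀ n, N n ≤ M' n := fun n => by rw [hM']; exact h1 _ _
  have k2 : ∀ n, M' n < l' n := fun n => by rw [hM', hl']; exact h2 _ _
  have k3 : ∀ n, R' n ∈ convexHull ℝ (PS (Set.Icc (N n) (M' n))) := fun n => by rw [hR', hM']; exact h3 _ _
  have k4 : ∀ n, ‖j (y' n) - (η + g.comp (R' n))‖ < ε n := fun n => by rw [hR', hy']; exact h4 _ _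
  have k5 : ∀ n, |g (ee (bn γ (l' n))) - a| < ε n := fun n => by rw [hl', haa]; exact h5 _ _
  have k6 : ∀ n, N (n + 1) = l' n + 1 := fun n => by rw [hl']; exact hNs n
  have hNm : StrictMono N := strictMono_nat_of_lt_succ fun n => by
    have e1 := k1 n
    have e2 := k2 n
    have e3 := k6 n
    omega
  have hlm : StrictMono l' := strictMono_nat_of_lt_succ fun n => by
    have e1 := k1 (n + 1)
    have e2 := k2 (n + 1)
    have e3 := k6 n
    omega
  have hl0 : ∀ n, n < l' n := by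
    intro n
    have e1 := k1 n
    have e2 := k2 n
    have e3 := hNm.id_le n
    simp only [id] at e3
    omega
  have hF : ∀ n n', n < n' → ∀ m ∈ Set.Icc (N n) (M' n), ∀ m' ∈ Set.Icc (N n') (M' n'), m < m' := by
    intro n n' hnn m hm m' hm'
    have e1 := k2 n
    have e2 := k6 n
    have e3 := hNm.monotone (Nat.succ_le_of_lt hnn)
    have e4 : N (n + 1) ≤ N n' := e3
    have e5 := hm.2
    have e6 := hm'.1
    omega
  have hlN : ∀ n, ∀ m ∈ Set.Icc (N n) (M' n), ∀ k, l' k ≤ m ↔ k < n := by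
    intro n m hm k
    constructor
    · intro hk
      by_contra hc
      push Not at hc
      have e1 := hlm.monotone hc
      have e2 := k2 n
      have e3 := hm.2
      omega
    · intro hk
      have e1 : N (k + 1) ≤ N n := hNm.monotone hk
      have e2 := k6 k
      have e3 := hm.1
      omega
  -- the operators
  obtain ⟨r, hr'⟩ : ∃ r : ℕ → DR, r = fun n => j (y' n) - (η + g.comp (R' n)) := ⟨_, rfl⟩
  have hrn : ∀ n, ‖r n‖ ≤ ε n := fun n => by rw [hr']; exact (k4 n).le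
  have hrx : ∀ n x, |r n x| ≤ ε n * ‖x‖ := fun n x => by
    rw [← Real.norm_eq_abs]
    exact (r n).le_of_opNorm_le (hrn n) x
  have hjy : ∀ n x, j (y' n) x = η x + g (R' n x) + r n x := by
    intro n x
    rw [hr']
    show j (y' n) x = η x + g (R' n x) + (j (y' n) x - (η x + g (R' n x)))
    ring
  obtain ⟨Ξ, hΞ1, hΞ2⟩ := chain_op chD (fun n => j (y' n)) (C := ‖g‖ + |a| / 2) (by positivity) (by
    intro x
    have q1 : QV (fun n => g (R' n x)) (‖g‖ * ‖x‖) := by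
      intro P hP hd
      have h1 := blocks_hull P (fun n => Set.Icc (N n) (M' n)) (fun n => ⟨N n, le_rfl, k1 n⟩) hF
        (fun p => p.1) (fun p => p.2) hP hd x R' k3
      have h2 : ∀ p ∈ P, (g (R' p.2 x) - g (R' p.1 x)) ^ 2 ≤ ‖g‖ ^ 2 * ‖R' p.2 x - R' p.1 x‖ ^ 2 := by
        intro p _
        rw [← map_sub, ← mul_pow, ← sq_abs, ← Real.norm_eq_abs]
        exact pow_le_pow_left₀ (norm_nonneg _) (g.le_opNorm _) 2
      refine (Finset.sum_le_sum h2).trans ?_
      rw [← Finset.mul_sum, mul_pow]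
      exact mul_le_mul_of_nonneg_left h1 (by positivity)
    have q2 : QV (fun n => r n x) (|a| / 2 * ‖x‖) := by
      apply QV.of_tv (by positivity)
      intro n
      have h1 : ∀ k ∈ range n, |r (k + 1) x - r k x| ≤ 3 * ε k * ‖x‖ := by
        intro k _
        refine (abs_sub _ _).trans ?_
        have e1 := hrx (k + 1) x
        have e2 := hrx k x
        have e3 := hεs k
        have e4 := hε0 k
        nlinarith [norm_nonneg x]
      refine (Finset.sum_le_sum h1).trans ?_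
      rw [← Finset.sum_mul]
      exact mul_le_mul_of_nonneg_right (hεsum n) (norm_nonneg _)
    have q3 := QV.add (by positivity) (by positivity) (QV.add (le_refl 0) (by positivity) (QV.const (η x)) q1) q2
    have e1 : (fun n => j (y' n) x) = fun n => η x + g (R' n x) + r n x := funext fun n => hjy n x
    rw [e1]
    have e2 : (‖g‖ + |a| / 2) * ‖x‖ = 0 + ‖g‖ * ‖x‖ + |a| / 2 * ‖x‖ := by ring
    rw [e2]
    exact q3)
  obtain ⟨W, hW1, hW2⟩ := exists_W γ l' hlm hl0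
  refine ⟨Ξ, |a| / 2, by positivity, ?_, ?_⟩
  · intro n
    refine ⟨y' n - y' 0, fun x => ?_⟩
    rw [hΞ1, cnt_bn, map_sub]
    rfl
  · intro f hf
    -- the main identity
    have hRW : ∀ n x, R' n (W x) = ∑ k ∈ range n, inc1 k x • (ee (bn γ (l' k)) : VR) := by
      intro n x
      have h6 : convexHull ℝ (PS (Set.Icc (N n) (M' n))) ⊆
          {A | A (W x) = ∑ k ∈ range n, inc1 k x • (ee (bn γ (l' k)) : VR)} := by
        apply convexHull_min
        · rintro _ ⟨m, hm, rfl⟩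
          exact PP_W hlm hl0 hW1 n m (hlN n m hm) x
        · intro A hA B hB α β hα hβ hαβ
          show α • A (W x) + β • B (W x) = _
          rw [hA, hB, ← add_smul, hαβ, one_smul]
      exact h6 (k3 n)
    obtain ⟨u, hu⟩ : ∃ u : ℕ → VR → ℝ, u = fun n x =>
      ∑ k ∈ range n, inc1 k x * (g (ee (bn γ (l' k))) - a) + (r n (W x) - r 0 (W x)) := ⟨_, rfl⟩
    have hu0 : ∀ x, u 0 x = 0 := by
      intro x
      rw [hu]
      show ∑ k ∈ range 0, inc1 k x * (g (ee (bn γ (l' k))) - a) + (r 0 (W x) - r 0 (W x)) = 0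
      rw [Finset.range_zero, Finset.sum_empty]
      ring
    have hmain : ∀ n x, j (y' n) (W x) - j (y' 0) (W x) = a * ev (bn dl n) x + u n x := by
      intro n x
      rw [hjy, hjy, hRW, hRW, Finset.range_zero, Finset.sum_empty, map_zero, map_sum, ← sum_inc1 n x, hu]
      show _ = a * _ + (∑ k ∈ range n, inc1 k x * (g (ee (bn γ (l' k))) - a) + (r n (W x) - r 0 (W x)))
      have e1 : ∑ k ∈ range n, g (inc1 k x • (ee (bn γ (l' k)) : VR)) =
          a * ∑ k ∈ range n, inc1 k x + ∑ k ∈ range n, inc1 k x * (g (ee (bn γ (l' k))) - a) := by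
        rw [Finset.mul_sum, ← Finset.sum_add_distrib]
        refine Finset.sum_congr rfl fun k _ => ?_
        rw [map_smul, smul_eq_mul]
        ring
      rw [e1]
      ring
    have hpert : ∀ x, ‖Ξ (W x) - a • Pd x‖ ≤ |a| / 2 * ‖x‖ := by
      intro x
      obtain ⟨p, hp1, hp2⟩ := chain_norm chD (s := fun n => u n x) (C := |a| / 2 * ‖x‖) (by positivity) (by
        apply QV.of_tv (by positivity)
        intro n
        have h6 : ∀ k ∈ range n, |u (k + 1) x - u k x| ≤ 3 * ε k * ‖x‖ := by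
          intro k _
          have e1 : u (k + 1) x - u k x = inc1 k x * (g (ee (bn γ (l' k))) - a) + (r (k + 1) (W x) - r k (W x)) := by
            rw [hu]
            show (∑ i ∈ range (k + 1), inc1 i x * (g (ee (bn γ (l' i))) - a) + (r (k + 1) (W x) - r 0 (W x))) -
              (∑ i ∈ range k, inc1 i x * (g (ee (bn γ (l' i))) - a) + (r k (W x) - r 0 (W x))) = _
            rw [Finset.sum_range_succ]
            ring
          rw [e1]
          refine (abs_add_le _ _).trans ?_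
          rw [abs_mul]
          have e2 : |inc1 k x| ≤ ‖x‖ := ev_bn_le dl k x
          have e3 := (k5 k).le
          have e4 : |r (k + 1) (W x) - r k (W x)| ≤ ε (k + 1) * ‖W x‖ + ε k * ‖W x‖ :=
            (abs_sub _ _).trans (add_le_add (hrx _ _) (hrx _ _))
          have e5 := hW2 x
          have e6 := hεs k
          have e7 := hε0 k
          have e8 := hε0 (k + 1)
          have e9 : |inc1 k x| * |g (ee (bn γ (l' k))) - a| ≤ ‖x‖ * ε k :=
            mul_le_mul e2 e3 (abs_nonneg _) (norm_nonneg _)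
          have e10 : ε (k + 1) * ‖W x‖ ≤ ε k * ‖x‖ := mul_le_mul e6 e5 (norm_nonneg _) e7.le
          have e11 : ε k * ‖W x‖ ≤ ε k * ‖x‖ := mul_le_mul_of_nonneg_left e5 e7.le
          linarith
        refine (Finset.sum_le_sum h6).trans ?_
        rw [← Finset.sum_mul]
        exact mul_le_mul_of_nonneg_right (hεsum n) (norm_nonneg _))
      have e1 : Ξ (W x) - a • Pd x = p := by
        apply ext_ev
        intro t
        rw [hp1, map_sub, map_smul, hΞ1, ev_Pd, hmain, hu0, smul_eq_mul]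
        ring
      rw [e1]
      exact hp2
    have h6 : ‖f‖ ≤ |a|⁻¹ * (‖f.comp Ξ‖ + ‖f‖ * (|a| / 2)) := by
      refine ContinuousLinearMap.opNorm_le_bound _ (by positivity) fun x => ?_
      have e1 : a * f x = (f.comp Ξ) (W x) - f (Ξ (W x) - a • Pd x) := by
        rw [map_sub, map_smul, hf]
        show a * f x = f (Ξ (W x)) - (f (Ξ (W x)) - a * f x)
        ring
      have e2 : |a| * ‖f x‖ ≤ ‖f.comp Ξ‖ * ‖x‖ + ‖f‖ * (|a| / 2 * ‖x‖) := by
        rw [← Real.norm_eq_abs a, ← norm_mul, e1, Real.norm_eq_abs a]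
        refine (norm_sub_le _ _).trans (add_le_add ?_ ?_)
        · exact ((f.comp Ξ).le_opNorm _).trans (mul_le_mul_of_nonneg_left (hW2 x) (norm_nonneg _))
        · exact (f.le_opNorm _).trans (mul_le_mul_of_nonneg_left (hpert x) (norm_nonneg _))
      have e3 : |a|⁻¹ * (‖f.comp Ξ‖ + ‖f‖ * (|a| / 2)) * ‖x‖ =
          |a|⁻¹ * (‖f.comp Ξ‖ * ‖x‖ + ‖f‖ * (|a| / 2 * ‖x‖)) := by ring
      rw [e3, inv_mul_eq_div, le_div_iff₀ ha0, mul_comm]
      exact e2
    rw [inv_mul_eq_div, le_div_iff₀ ha0] at h6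
    linarith

end Q99.JTS
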