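import Pool.Agent.Q99.JTS.Defs
import Pool.Agent.Q99.JTS.Refl

/-!
# Models of the James tree space and of the James space
-/

set_option autoImplicit false
open Filter Topology Finset
open scoped ENNReal

namespace Q99.JTS

open Pool.Agent.H585R4.JT Pool.Agent.H511R3.JT

variable {ι : Type}

/-- the image of a finitely supported function -/
noncomputable def JJ (ρ : ι → Nd) : (ι →₀ ℝ) →ₗ[ℝ] VR := Finsupp.linearCombination ℝ (fun i => (ee (ρ i) : VR))

theorem JJ_apply (ρ : ι → Nd) (x : ι →₀ ℝ) : JJ ρ x = ∑ i ∈ x.support, x i • (ee (ρ i) : VR) := rfl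

theorem ev_JJ_sub {ρ : ι → Nd} (hρ : ∀ i, ρ i ≠ []) (x : ι →₀ ℝ) {a b : Nd} (hab : a <:+ b) (S : Finset ι)
    (hS : ∀ i, i ∈ S ↔ Inn (ρ i) (a, b)) : ev b (JJ ρ x) - ev a (JJ ρ x) = ∑ i ∈ S, x i := by
  classical
  rw [JJ_apply, map_sum, map_sum, ← Finset.sum_sub_distrib]
  have h1 : ∀ i ∈ x.support, ev b (x i • (ee (ρ i) : VR)) - ev a (x i • (ee (ρ i) : VR)) =
      if i ∈ S then x i else 0 := by
    intro i _
    rw [map_smul, map_smul, ev_ee, ev_ee, smul_eq_mul, smul_eq_mul]
    by_cases hb : ρ i <:+ b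
    · by_cases ha : ρ i <:+ a
      · have hni : ¬ i ∈ S := by
          rw [hS]
          intro h
          exact h.2.1 (ha.eq_of_length (le_antisymm ha.length_le h.1.length_le))
        rw [if_pos ⟨hb, hρ i⟩, if_pos ⟨ha, hρ i⟩, if_neg hni]
        ring
      · have hi : i ∈ S := by
          rw [hS]
          have h1 : a <:+ ρ i := by
            rcases suffix_total hab hb with h | h
            · exact h
            · exact absurd h ha
          exact ⟨h1, fun h => ha (h ▸ List.suffix_refl _), hb⟩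
        rw [if_pos ⟨hb, hρ i⟩, if_neg (fun h => ha h.1), if_pos hi]
        ring
    · have ha : ¬ ρ i <:+ a := fun h => hb (h.trans hab)
      have hni : ¬ i ∈ S := by
        rw [hS]
        exact fun h => hb h.2.2
      rw [if_neg (fun h => hb h.1), if_neg (fun h => ha h.1), if_neg hni]
      ring
  rw [Finset.sum_congr rfl h1, ← Finset.sum_filter]
  apply Finset.sum_subset
  · intro i hi
    exact (Finset.mem_filter.1 hi).2
  · intro i hi hni
    by_contra hne
    exact hni (Finset.mem_filter.2 ⟨Finsupp.mem_support_iff.2 hne, hi⟩)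

theorem norm_JJ {ρ : ι → Nd} (hρ : ∀ i, ρ i ≠ []) (𝒮 : Finset ι → Prop)
    (H1 : ∀ a b : Nd, a <:+ b → ∃ S : Finset ι, (∀ i, i ∈ S ↔ Inn (ρ i) (a, b)) ∧ (S.Nonempty → 𝒮 S))
    (H2 : ∀ S : Finset ι, 𝒮 S → ∃ a b : Nd, a <:+ b ∧ (∀ i, i ∈ S ↔ Inn (ρ i) (a, b)) ∧
      ∀ t, Inn t (a, b) → ∃ i, ρ i = t) (x : ι →₀ ℝ) : ‖JJ ρ x‖ = famNorm 𝒮 x := by
  classical
  have hbd : ∀ r ∈ {r | ∃ P : Finset (Finset ι), (∀ S ∈ P, 𝒮 S) ∧
      (∀ S ∈ P, ∀ S' ∈ P, S ≠ S' → Disjoint S S') ∧ r = Real.sqrt (∑ S ∈ P, (∑ i ∈ S, x i) ^ 2)},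
      r ≤ ‖JJ ρ x‖ := by
    rintro r ⟨P, hP1, hP2, rfl⟩
    have h1 : ∀ S : Finset ι, ∃ p : Nd × Nd, 𝒮 S → p.1 <:+ p.2 ∧ (∀ i, i ∈ S ↔ Inn (ρ i) p) ∧
      ∀ t, Inn t p → ∃ i, ρ i = t := by
      intro S
      by_cases hS : 𝒮 S
      · obtain ⟨a, b, h⟩ := H2 S hS
        exact ⟨(a, b), fun _ => h⟩
      · exact ⟨([], []), fun h => absurd h hS⟩
    choose p hp using h1
    have h2 : ∑ S ∈ P, (∑ i ∈ S, x i) ^ 2 = ∑ S ∈ P, ‖ev (p S).2 (JJ ρ x) - ev (p S).1 (JJ ρ x)‖ ^ 2 := by
      apply Finset.sum_congr rfl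
      intro S hS
      obtain ⟨h3, h4, h5⟩ := hp S (hP1 S hS)
      rw [Real.norm_eq_abs, sq_abs, ev_JJ_sub hρ x h3 S h4]
    rw [h2, Real.sqrt_le_left (norm_nonneg _)]
    apply sum_le (JJ ρ x) P p
    · intro S hS
      exact (hp S (hP1 S hS)).1
    · rintro S hS S' hS' hne t ⟨h3, h4⟩
      obtain ⟨i, rfl⟩ := (hp S (hP1 S hS)).2.2 t h3
      have h5 := ((hp S (hP1 S hS)).2.1 i).2 h3
      have h6 := ((hp S' (hP1 S' hS')).2.1 i).2 h4
      exact (Finset.disjoint_left.1 (hP2 S hS S' hS' hne)) h5 h6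
  have hne : (0 : ℝ) ∈ {r | ∃ P : Finset (Finset ι), (∀ S ∈ P, 𝒮 S) ∧
      (∀ S ∈ P, ∀ S' ∈ P, S ≠ S' → Disjoint S S') ∧ r = Real.sqrt (∑ S ∈ P, (∑ i ∈ S, x i) ^ 2)} :=
    ⟨∅, by simp, by simp, by simp⟩
  apply le_antisymm
  · have h0 : 0 ≤ famNorm 𝒮 x := le_csSup ⟨_, hbd⟩ hne
    apply norm_le h0
    intro F hF
    have h1 : ∀ p : Nd × Nd, ∃ S : Finset ι, p.1 <:+ p.2 → (∀ i, i ∈ S ↔ Inn (ρ i) p) ∧ (S.Nonempty → 𝒮 S) := by
      intro p
      by_cases hp : p.1 <:+ p.2
      · obtain ⟨S, hS⟩ := H1 p.1 p.2 hp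
        exact ⟨S, fun _ => hS⟩
      · exact ⟨∅, fun h => absurd h hp⟩
    choose S hS using h1
    have h2 : ∑ p ∈ F, ‖ev p.2 (JJ ρ x) - ev p.1 (JJ ρ x)‖ ^ 2 = ∑ p ∈ F, (∑ i ∈ S p, x i) ^ 2 := by
      apply Finset.sum_congr rfl
      intro p hp
      rw [Real.norm_eq_abs, sq_abs, ev_JJ_sub hρ x (hF.1 p hp) (S p) (hS p (hF.1 p hp)).1]
    have h3 : ∑ p ∈ F, (∑ i ∈ S p, x i) ^ 2 = ∑ p ∈ F.filter (fun p => (S p).Nonempty), (∑ i ∈ S p, x i) ^ 2 := by
      symm
      apply Finset.sum_filter_of_ne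
      intro p _ h
      by_contra hne
      rw [Finset.not_nonempty_iff_eq_empty] at hne
      apply h
      rw [hne, Finset.sum_empty]
      ring
    have hdj : ∀ p ∈ F, ∀ q ∈ F, p ≠ q → Disjoint (S p) (S q) := by
      intro p hp q hq hne
      rw [Finset.disjoint_left]
      intro i hi hi'
      exact hF.2 p hp q hq hne (ρ i) ⟨((hS p (hF.1 p hp)).1 i).1 hi, ((hS q (hF.1 q hq)).1 i).1 hi'⟩
    have hinj : Set.InjOn S (F.filter (fun p => (S p).Nonempty) : Finset (Nd × Nd)) := by
      intro p hp q hq hpq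
      rw [Finset.mem_coe, Finset.mem_filter] at hp hq
      by_contra hne
      have h4 := hdj p hp.1 q hq.1 hne
      rw [hpq, disjoint_self] at h4
      exact (Finset.nonempty_iff_ne_empty.1 hq.2) h4
    have h4 : ∑ p ∈ F.filter (fun p => (S p).Nonempty), (∑ i ∈ S p, x i) ^ 2 =
        ∑ T ∈ (F.filter (fun p => (S p).Nonempty)).image S, (∑ i ∈ T, x i) ^ 2 := by
      rw [Finset.sum_image (fun p hp q hq h => hinj hp hq h)]
    rw [h2, h3, h4]
    have h5 : Real.sqrt (∑ T ∈ (F.filter (fun p => (S p).Nonempty)).image S, (∑ i ∈ T, x i) ^ 2) ≤ famNorm 𝒮 x := by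
      apply le_csSup ⟨_, hbd⟩
      refine ⟨(F.filter (fun p => (S p).Nonempty)).image S, ?_, ?_, rfl⟩
      · intro T hT
        obtain ⟨p, hp, rfl⟩ := Finset.mem_image.1 hT
        rw [Finset.mem_filter] at hp
        exact (hS p (hF.1 p hp.1)).2 hp.2
      · intro T hT T' hT' hne
        obtain ⟨p, hp, rfl⟩ := Finset.mem_image.1 hT
        obtain ⟨q, hq, rfl⟩ := Finset.mem_image.1 hT'
        rw [Finset.mem_filter] at hp hq
        exact hdj p hp.1 q hq.1 (fun h => hne (by rw [h]))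
    rw [Real.sqrt_le_left h0] at h5
    exact h5
  · exact csSup_le ⟨0, hne⟩ hbd

/-! ### the subtree above `[false]` -/

/-- the node of the tree of the library corresponding to a node of the dyadic tree -/
def rh (α : List Bool) : Nd := α.reverse ++ [false]

theorem rh_ne (α : List Bool) : rh α ≠ [] := by
  unfold rh
  simp

theorem length_rh (α : List Bool) : (rh α).length = α.length + 1 := by
  unfold rh
  simp

theorem rh_suffix {α β : List Bool} : rh α <:+ rh β ↔ α <+: β := by
  unfold rh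
  rw [List.suffix_append_self_iff, List.reverse_suffix]

theorem false_suffix_rh (α : List Bool) : [false] <:+ rh α := List.suffix_append _ _

theorem exists_rh {t : Nd} (h : [false] <:+ t) : ∃ β, rh β = t := by
  obtain ⟨l, rfl⟩ := h
  refine ⟨l.reverse, ?_⟩
  unfold rh
  rw [List.reverse_reverse]

theorem inn_rh {α : List Bool} {a : Nd} {γ : List Bool} (h : a <:+ rh γ) :
    Inn (rh α) (a, rh γ) ↔ α <+: γ ∧ a.length ≤ α.length := by
  rw [inn_iff h, rh_suffix, length_rh]
  constructor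
  · rintro ⟨h1, h2⟩
    exact ⟨h1, by omega⟩
  · rintro ⟨h1, h2⟩
    exact ⟨h1, by omega⟩

theorem norm_rh (x : List Bool →₀ ℝ) : ‖JJ rh x‖ = jtNorm x := by
  classical
  apply norm_JJ rh_ne
  · intro a b hab
    by_cases hb : [false] <:+ b
    · obtain ⟨γ, rfl⟩ := exists_rh hb
      refine ⟨γ.inits.toFinset.filter (fun β => a.length ≤ β.length), ?_, ?_⟩
      · intro β
        rw [Finset.mem_filter, List.mem_toFinset, List.mem_inits, inn_rh hab]
      · rintro ⟨β0, hβ0⟩
        rw [Finset.mem_filter, List.mem_toFinset, List.mem_inits] at hβ0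
        have h1 : a.length ≤ γ.length := hβ0.2.trans hβ0.1.length_le
        refine ⟨γ.take a.length, γ, List.take_prefix _ _, fun β => ?_⟩
        rw [Finset.mem_filter, List.mem_toFinset, List.mem_inits]
        constructor
        · rintro ⟨h2, h3⟩
          refine ⟨List.prefix_of_prefix_length_le (List.take_prefix _ _) h2 ?_, h2⟩
          rw [List.length_take]
          exact (min_le_left _ _).trans h3
        · rintro ⟨h2, h3⟩
          refine ⟨h3, ?_⟩
          have := h2.length_le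
          rw [List.length_take, min_eq_left h1] at this
          exact this
    · refine ⟨∅, ?_, fun h => absurd h Finset.not_nonempty_empty⟩
      intro β
      constructor
      · intro h
        exact absurd h (Finset.notMem_empty _)
      · intro h
        exact absurd ((false_suffix_rh β).trans h.2.2) hb
  · rintro S ⟨α, γ, hαγ, hS⟩
    have h1 : (rh α).tail <:+ rh γ := (List.tail_suffix _).trans (rh_suffix.2 hαγ)
    have h2 : (rh α).tail.length = α.length := by
      rw [List.length_tail, length_rh]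
      omega
    refine ⟨(rh α).tail, rh γ, h1, ?_, ?_⟩
    · intro β
      rw [hS, inn_rh h1, h2]
      constructor
      · rintro ⟨h3, h4⟩
        exact ⟨h4, h3.length_le⟩
      · rintro ⟨h3, h4⟩
        exact ⟨List.prefix_of_prefix_length_le hαγ h3 h4, h3⟩
    · intro t ht
      rw [inn_iff h1] at ht
      apply exists_rh
      apply suffix_of_le (false_suffix_rh γ) ht.1
      have := ht.2
      show 1 ≤ t.length
      omega

/-! ### the all-`false` branch -/

/-- the nodes of the all-`false` branch -/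
def rb (n : ℕ) : Nd := bn dl (n + 1)

theorem rb_ne (n : ℕ) : rb n ≠ [] := bn_ne_nil dl (Nat.le_add_left 1 n)

theorem norm_rb (x : ℕ →₀ ℝ) : ‖JJ rb x‖ = jNorm x := by
  classical
  apply norm_JJ rb_ne
  · intro a b hab
    refine ⟨Finset.Ico (cnt chD a) (cnt chD b), ?_, ?_⟩
    · intro n
      rw [Finset.mem_Ico]
      constructor
      · rintro ⟨h1, h2⟩
        exact cnt_inn chD hab h1 h2
      · intro h
        refine ⟨?_, (lt_cnt chD).2 h.2.2⟩
        by_contra hc
        push Not at hc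
        have h1 := (lt_cnt chD).1 hc
        exact h.2.1 (h1.eq_of_length (le_antisymm h1.length_le h.1.length_le))
    · rintro ⟨n, hn⟩
      rw [Finset.mem_Ico] at hn
      refine ⟨cnt chD a, cnt chD b - 1, ?_⟩
      ext k
      rw [Finset.mem_Ico, Finset.mem_Icc]
      omega
  · rintro S ⟨a, b, rfl⟩
    by_cases hab : a ≤ b
    · have h1 : bn dl a <:+ bn dl (b + 1) := bn_suffix dl (by omega)
      refine ⟨bn dl a, bn dl (b + 1), h1, ?_, ?_⟩
      · intro n
        rw [Finset.mem_Icc, inn_iff h1]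
        show _ ↔ bn dl (n + 1) <:+ bn dl (b + 1) ∧ (bn dl a).length < (bn dl (n + 1)).length
        rw [length_bn, length_bn]
        constructor
        · rintro ⟨h2, h3⟩
          exact ⟨bn_suffix dl (by omega), by omega⟩
        · rintro ⟨h2, h3⟩
          have := h2.length_le
          rw [length_bn, length_bn] at this
          omega
      · intro t ht
        rw [inn_iff h1, length_bn] at ht
        refine ⟨t.length - 1, ?_⟩
        show bn dl (t.length - 1 + 1) = t
        rw [Nat.sub_add_cancel (by omega)]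
        exact (suffix_bn_iff ht.1).symm
    · refine ⟨[], [], List.suffix_refl _, ?_, ?_⟩
      · intro n
        rw [Finset.mem_Icc]
        constructor
        · intro h
          omega
        · intro h
          exact absurd (List.suffix_nil.1 h.2.2) h.2.1
      · intro t h
        exact absurd (List.suffix_nil.1 h.2.2) h.2.1

/-! ### embeddings of the models -/

theorem exists_emb {X : Type} [NormedAddCommGroup X] [NormedSpace ℝ X] {N : (ι →₀ ℝ) → ℝ} {e : (ι →₀ ℝ) →ₗ[ℝ] X}
    (h : IsCompletion N X e) {ρ : ι → Nd} (hN : ∀ x, ‖JJ ρ x‖ = N x) (π : VR →L[ℝ] VR)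
    (hπ1 : ∀ x, ‖π x‖ ≤ ‖x‖) (hπ2 : ∀ i, π (ee (ρ i)) = ee (ρ i))
    (hπ3 : ∀ s, s ≠ [] → (∃ i, ρ i = s) ∨ π (ee s) = 0) :
    ∃ (i : X →L[ℝ] VR) (q : VR →L[ℝ] X), (∀ x, ‖i x‖ = ‖x‖) ∧ (∀ v, ‖q v‖ ≤ ‖v‖) ∧ (∀ v, i (q v) = π v) ∧
      (∀ x, q (i x) = x) ∧ ∀ x, i (e x) = JJ ρ x := by
  have := h.complete
  have hb : ∃ C : ℝ, ∀ x, ‖JJ ρ x‖ ≤ C * ‖e x‖ := ⟨1, fun x => by rw [one_mul, hN, h.norm_eq]⟩
  obtain ⟨i, hi⟩ : ∃ i : X →L[ℝ] VR, i = (JJ ρ).extendOfNorm e := ⟨_, rfl⟩
  have hie : ∀ x, i (e x) = JJ ρ x := fun x => by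
    rw [hi]
    exact LinearMap.extendOfNorm_eq h.dense hb x
  have hin : ∀ x, ‖i x‖ = ‖x‖ := by
    intro x
    have h1 : IsClosed {x : X | ‖i x‖ = ‖x‖} := isClosed_eq (i.continuous.norm) continuous_norm
    have h2 : closure (Set.range e) ⊆ {x : X | ‖i x‖ = ‖x‖} := by
      apply closure_minimal _ h1
      rintro _ ⟨y, rfl⟩
      show ‖i (e y)‖ = ‖e y‖
      rw [hie, hN, h.norm_eq]
    exact h2 (h.dense x)
  have hinj : Function.Injective i := by
    intro a b hab
    have h1 := hin (a - b)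
    rw [map_sub, hab, sub_self, norm_zero] at h1
    exact sub_eq_zero.1 (norm_eq_zero.1 h1.symm)
  have hclosed : IsClosed (Set.range i) := by
    have : Isometry i := AddMonoidHomClass.isometry_of_norm i hin
    exact this.isClosedEmbedding.isClosed_range
  have hee : ∀ s, s ≠ [] → π (ee s) ∈ Set.range i := by
    intro s hs
    rcases hπ3 s hs with ⟨k, rfl⟩ | h0
    · rw [hπ2]
      refine ⟨e (Finsupp.single k 1), ?_⟩
      rw [hie]
      show Finsupp.linearCombination ℝ (fun i => (ee (ρ i) : VR)) (Finsupp.single k 1) = _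
      rw [Finsupp.linearCombination_single, one_smul]
    · rw [h0]
      exact ⟨0, map_zero i⟩
  have hPP : ∀ n v, π (PP n v) ∈ LinearMap.range (i : X →ₗ[ℝ] VR) := by
    intro n v
    induction n with
    | zero =>
      rw [PP_zero, map_zero]
      exact Submodule.zero_mem _
    | succ n ih =>
      rw [PP_succ, map_add, map_sum]
      refine Submodule.add_mem _ ih (Submodule.sum_mem _ fun s hs => ?_)
      rw [map_smul]
      apply Submodule.smul_mem
      rw [mem_lev] at hs
      exact hee s (by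
        rintro rfl
        simp at hs)
  have hmem : ∀ v, ∃ x : X, i x = π v := by
    intro v
    have h1 : π v ∈ closure (Set.range i) := by
      refine mem_closure_of_tendsto ((π.continuous.tendsto v).comp (tendsto_PP v))
        (Filter.Eventually.of_forall fun n => ?_)
      exact hPP n v
    rw [hclosed.closure_eq] at h1
    exact h1
  choose q hq using hmem
  let L : VR →ₗ[ℝ] X :=
    { toFun := q
      map_add' := fun u v => hinj (by rw [hq, map_add, map_add, hq, hq])
      map_smul' := fun c v => hinj (by rw [hq, RingHom.id_apply, map_smul, map_smul, hq]) }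
  have hL : ∀ v, ‖L v‖ ≤ 1 * ‖v‖ := fun v => by
    show ‖q v‖ ≤ _
    rw [← hin, hq, one_mul]
    exact hπ1 v
  have hπi : ∀ x, π (i x) = i x := by
    intro x
    have h1 : IsClosed {x : X | π (i x) = i x} := isClosed_eq (π.continuous.comp i.continuous) i.continuous
    have h2 : closure (Set.range e) ⊆ {x : X | π (i x) = i x} := by
      apply closure_minimal _ h1
      rintro _ ⟨y, rfl⟩
      show π (i (e y)) = i (e y)
      rw [hie, JJ_apply, map_sum]
      exact Finset.sum_congr rfl fun k _ => by rw [map_smul, hπ2]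
    exact h2 (h.dense x)
  refine ⟨i, L.mkContinuous 1 hL, hin, fun v => ?_, hq, fun x => ?_, hie⟩
  · have := hL v
    rw [one_mul] at this
    exact this
  · apply hinj
    show i (q (i x)) = i x
    rw [hq, hπi]

/-- projection on the subtree above `[false]` -/
theorem exists_Ps : ∃ π : VR →L[ℝ] VR, (∀ x t, ev t (π x) = if [false] <:+ t then ev t x else 0) ∧
    ∀ x, ‖π x‖ ≤ ‖x‖ := by
  classical
  let Θ : (Nd → ℝ) →ₗ[ℝ] (Nd → ℝ) :=
    { toFun := fun f t => if [false] <:+ t then f t else 0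
      map_add' := fun f g => by
        funext t
        by_cases h : [false] <:+ t
        · simp [h]
        · simp [h]
      map_smul' := fun c f => by
        funext t
        by_cases h : [false] <:+ t
        · simp [h]
        · simp [h] }
  obtain ⟨T, h1, h2⟩ := exists_pathop (𝕜 := ℝ) Θ (by
    intro f hf
    show (if [false] <:+ [] then f [] else 0) = 0
    rw [hf]
    simp) (by
    intro a b hab
    by_cases hb : [false] <:+ b
    · by_cases ha : [false] <:+ a
      · refine ⟨a, b, hab, fun t ht => ht, fun f _ => ?_⟩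
        show (if [false] <:+ b then f b else 0) - (if [false] <:+ a then f a else 0) = _
        rw [if_pos hb, if_pos ha]
      · have ha' : a = [] := by
          by_contra hne
          apply ha
          apply suffix_of_le hb hab
          exact List.length_pos_iff.2 hne
        subst ha'
        refine ⟨[], b, hab, fun t ht => ht, fun f hf => ?_⟩
        show (if [false] <:+ b then f b else 0) - (if [false] <:+ [] then f [] else 0) = _
        rw [if_pos hb, if_neg ha, hf]
    · have ha : ¬ [false] <:+ a := fun h => hb (h.trans hab)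
      refine ⟨a, a, List.suffix_refl a, ?_, fun f _ => ?_⟩
      · rintro t ht
        rw [inn_iff (List.suffix_refl a)] at ht
        exact absurd ht.1.length_le (not_le.2 ht.2)
      · show (if [false] <:+ b then f b else 0) - (if [false] <:+ a then f a else 0) = _
        rw [if_neg hb, if_neg ha, sub_self, sub_self])
  exact ⟨T, h1, h2⟩

theorem emb_X {X : Type} [NormedAddCommGroup X] [NormedSpace ℝ X] {e : (List Bool →₀ ℝ) →ₗ[ℝ] X}
    (h : IsCompletion jtNorm X e) : ∃ (i : X →L[ℝ] VR) (q : VR →L[ℝ] X), (∀ x, ‖i x‖ = ‖x‖) ∧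
      (∀ v, ‖q v‖ ≤ ‖v‖) ∧ (∀ x, q (i x) = x) ∧ ∀ x, i (e x) = JJ rh x := by
  obtain ⟨π, hπ1, hπ2⟩ := exists_Ps
  obtain ⟨i, q, h1, h2, _, h4, h5⟩ := exists_emb h (ρ := rh) norm_rh π hπ2 (by
    intro α
    apply ext_ev
    intro t
    rw [hπ1]
    by_cases ht : [false] <:+ t
    · rw [if_pos ht]
    · rw [if_neg ht, ev_ee, if_neg]
      rintro ⟨h1, _⟩
      exact ht ((false_suffix_rh α).trans h1)) (by
    intro s hs
    by_cases h1 : [false] <:+ s
    · exact Or.inl (exists_rh h1)
    · right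
      apply ext_ev
      intro t
      rw [hπ1, map_zero]
      by_cases ht : [false] <:+ t
      · rw [if_pos ht, ev_ee, if_neg]
        rintro ⟨h2, _⟩
        apply h1
        apply suffix_of_le ht h2
        exact List.length_pos_iff.2 hs
      · rw [if_neg ht])
  exact ⟨i, q, h1, h2, h4, h5⟩

theorem emb_Z {Z : Type} [NormedAddCommGroup Z] [NormedSpace ℝ Z] {e : (ℕ →₀ ℝ) →ₗ[ℝ] Z}
    (h : IsCompletion jNorm Z e) : ∃ (i : Z →L[ℝ] VR) (q : VR →L[ℝ] Z), (∀ x, ‖i x‖ = ‖x‖) ∧
      (∀ v, ‖q v‖ ≤ ‖v‖) ∧ (∀ v, i (q v) = Pd v) ∧ (∀ x, q (i x) = x) ∧ ∀ x, i (e x) = JJ rb x := by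
  apply exists_emb h (ρ := rb) norm_rb Pd Pd_le
  · intro n
    apply ext_ev
    intro t
    rw [ev_Pd, ev_ee, ev_ee]
    have h1 : rb n <:+ bn dl (cnt chD t) ↔ rb n <:+ t := by
      have h2 := lt_cnt chD (t := bn dl (cnt chD t)) (j := n)
      have h3 := lt_cnt chD (t := t) (j := n)
      rw [cnt_bn] at h2
      exact h2.symm.trans h3
    simp only [h1]
  · intro s hs
    by_cases h1 : s = bn dl s.length
    · left
      refine ⟨s.length - 1, ?_⟩
      show bn dl (s.length - 1 + 1) = s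
      have h2 : 1 ≤ s.length := List.length_pos_iff.2 hs
      rw [Nat.sub_add_cancel h2]
      exact h1.symm
    · right
      apply ext_ev
      intro t
      rw [ev_Pd, ev_ee, map_zero, if_neg]
      rintro ⟨h2, _⟩
      exact h1 (suffix_bn_iff h2)

end Q99.JTS
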