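import Pool.Agent.Q99.JTS.Model

/-!
# Non-reflexive subspaces of the dual of the James tree space contain the dual of the James space
-/

set_option autoImplicit false
open Filter Topology Finset
open scoped ENNReal

namespace Q99.JTS

open Pool.Agent.H585R4.JT Pool.Agent.H511R3.JT

theorem QV.comp_mono {s : ℕ → ℝ} {C : ℝ} (hs : QV s C) {f : ℕ → ℕ} (hf : Monotone f) : QV (fun n => s (f n)) C := by
  intro P hP hd
  apply hs.sum_le P (fun p => (f p.1, f p.2))
  · intro p hp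
    exact hf (hP p hp)
  · rintro p hp q hq hne k ⟨⟨h1, h2⟩, h3, h4⟩
    have h5 : p.1 < p.2 := by
      by_contra hc
      push Not at hc
      have := hf hc
      simp only at h1 h2
      omega
    have h6 : q.1 < q.2 := by
      by_contra hc
      push Not at hc
      have := hf hc
      simp only at h3 h4
      omega
    have h7 : p.2 ≤ q.1 ∨ q.2 ≤ p.1 := by
      by_contra hc
      push Not at hc
      exact hd p hp q hq hne (max p.1 q.1) ⟨⟨le_max_left _ _, max_lt h5 hc.1⟩, le_max_right _ _, max_lt hc.2 h6⟩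
    rcases h7 with h7 | h7
    · have := hf h7
      simp only at h2 h3
      omega
    · have := hf h7
      simp only at h1 h4
      omega

theorem exists_Lsh : ∃ T : VR →L[ℝ] VR,
    (∀ x t, ev t (T x) = ev (bn dl (cnt chD t + 1)) x - ev (bn dl 1) x) ∧ ∀ x, ‖T x‖ ≤ ‖x‖ := by
  obtain ⟨T, h1, h2⟩ := chain_op chD (fun n => ev (bn dl (n + 1))) (C := 1) zero_le_one (by
    intro x
    rw [one_mul]
    exact (QV.branch dl x).comp_mono (f := fun n => n + 1) (fun a b h => Nat.succ_le_succ h))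
  exact ⟨T, h1, fun x => by simpa using h2 x⟩

theorem exists_Rsh : ∃ T : VR →L[ℝ] VR,
    (∀ x t, ev t (T x) = ev (bn dl (cnt chD t - 1)) x) ∧ ∀ x, ‖T x‖ ≤ ‖x‖ := by
  obtain ⟨T, h1, h2⟩ := chain_op chD (fun n => ev (bn dl (n - 1))) (C := 1) zero_le_one (by
    intro x
    rw [one_mul]
    exact (QV.branch dl x).comp_mono (f := fun n => n - 1) (fun a b h => Nat.sub_le_sub_right h 1))
  refine ⟨T, fun x t => ?_, fun x => by simpa using h2 x⟩
  rw [h1]
  show ev (bn dl (cnt chD t - 1)) x - ev [] x = _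
  rw [ev_nil, sub_zero]

theorem ev_bn_Pd (n : ℕ) (x : VR) : ev (bn dl n) (Pd x) = ev (bn dl n) x := by
  rw [ev_Pd, cnt_bn]

theorem bb_Pd (x : VR) : bb dl (Pd x) = bb dl x := by
  refine tendsto_nhds_unique (bb_lim dl (Pd x)) ?_
  refine (bb_lim dl x).congr fun n => ?_
  rw [ev_bn_Pd]

theorem PP_Pd (n : ℕ) (x : VR) : PP n (Pd x) = ∑ k ∈ range n, inc1 k x • (ee (rb k) : VR) :=
  PP_W (l := fun n => n + 1) (fun _ _ h => Nat.succ_lt_succ h) Nat.lt_succ_self
    (fun x t => ev_Pd x t) n n (fun _ => Nat.succ_le_iff) x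

/-- functionals on the branch without mass at infinity are limits of their truncations -/
theorem near_Pd (f : DR) (hf : ∀ x, f (Pd x) = f x) (h0 : Lam dl f = 0) {ε : ℝ} (hε : 0 < ε) :
    ∃ n, ∀ x, |f x - ∑ k ∈ range n, inc1 k x * f (ee (rb k))| ≤ ε * ‖x‖ := by
  obtain ⟨n, hn⟩ := tC1 f dl (by
    intro ε hε N
    have h3 := (Lam_lim dl f).norm
    rw [h0, norm_zero] at h3
    have h4 : ∀ᶠ n in (hyperfilter ℕ : Filter ℕ), ‖f (ee (bn dl n))‖ < ε :=
      h3.eventually (gt_mem_nhds hε)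
    obtain ⟨n, hn1, hn2⟩ := (h4.and (hyp_ge N)).exists
    exact ⟨n, hn2, hn1.le⟩) ε hε
  refine ⟨n, fun x => ?_⟩
  have h1 : ∑ k ∈ range n, inc1 k x * f (ee (rb k)) = f (PP n (Pd x)) := by
    rw [PP_Pd, map_sum]
    exact Finset.sum_congr rfl fun k _ => by rw [map_smul, smul_eq_mul]
  have h2 : f x = f (PP n (Pd x)) + f (QQ n (Pd x)) := by
    rw [← map_add, PP_add_QQ, hf]
  have h3 : QQ n (Pd x) = RR (bn dl n) (Pd x) := by
    apply ext_ev
    intro t
    rw [ev_QQ, ev_RR]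
    by_cases h : bn dl n <:+ t
    · rw [if_pos h]
      have h4 : tr n t = bn dl n := by
        apply eq_of_suffix_length (tr_suffix n t) h
        have := h.length_le
        rw [length_bn] at this
        rw [length_tr, length_bn]
        omega
      rw [h4]
    · rw [if_neg h, ev_Pd, ev_Pd]
      have h4 : cnt chD (tr n t) = cnt chD t := by
        apply eq_of_forall_lt_iff
        intro k
        rw [lt_cnt, lt_cnt]
        constructor
        · intro h5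
          exact h5.trans (tr_suffix _ _)
        · intro h5
          apply suffix_tr h5
          rw [length_bn]
          by_contra hc
          push Not at hc
          exact h ((bn_suffix dl (by omega)).trans h5)
      rw [h4, sub_self]
  rw [h1, h2, h3, add_sub_cancel_left, ← Real.norm_eq_abs]
  exact (hn _).trans (mul_le_mul_of_nonneg_left (Pd_le x) hε.le)

theorem q1_core {Y : Type} [NormedAddCommGroup Y] [NormedSpace ℝ Y] [CompleteSpace Y]
    (j : Y →L[ℝ] DR) (c : ℝ) (hc : 0 < c) (hj : ∀ y, c * ‖y‖ ≤ ‖j y‖)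
    (hr : ¬ Function.Surjective (NormedSpace.inclusionInDoubleDual ℝ Y))
    {Z : Type} [NormedAddCommGroup Z] [NormedSpace ℝ Z] {e : (ℕ →₀ ℝ) →ₗ[ℝ] Z}
    (h : IsCompletion jNorm Z e) : ∃ T : StrongDual ℝ Z →L[ℝ] Y, ∃ c' : ℝ, 0 < c' ∧ ∀ φ, c' * ‖φ‖ ≤ ‖T φ‖ := by
  obtain ⟨i, q, hi, hq, hiq, hqi, _⟩ := emb_Z h
  obtain ⟨Ξ, c1, hc1, hΞ1, hΞ2⟩ := exists_Xi j c hc hj hr
  obtain ⟨Ls, hL1, hL2⟩ := exists_Lsh
  obtain ⟨Rs, hR1, hR2⟩ := exists_Rsh
  have hinj : Function.Injective j := by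
    intro a b hab
    have h1 := hj (a - b)
    rw [map_sub, hab, sub_self, norm_zero] at h1
    have h2 : ‖a - b‖ ≤ 0 := by
      by_contra hcon
      push Not at hcon
      nlinarith
    exact sub_eq_zero.1 (norm_le_zero_iff.1 h2)
  have hclosed : IsClosed (Set.range j) := by
    have : AntilipschitzWith (Real.toNNReal c⁻¹) j := by
      apply AddMonoidHomClass.antilipschitz_of_bound
      intro y
      rw [Real.coe_toNNReal _ (by positivity), inv_mul_eq_div, le_div_iff₀ hc, mul_comm]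
      exact hj y
    exact this.isClosed_range j.uniformContinuous
  -- the functionals
  obtain ⟨lam, hlam⟩ : ∃ lam : StrongDual ℝ Z → ℝ, lam = fun φ => Lam dl (φ.comp q) := ⟨_, rfl⟩
  obtain ⟨F, hF⟩ : ∃ F : StrongDual ℝ Z → DR, F = fun φ => φ.comp q - lam φ • bb dl := ⟨_, rfl⟩
  obtain ⟨Ψ, hΨ⟩ : ∃ Ψ : StrongDual ℝ Z → DR, Ψ = fun φ => (F φ).comp Ls + lam φ • ev (bn dl 1) := ⟨_, rfl⟩
  have hqPd : ∀ x, q (Pd x) = q x := by
    intro x
    rw [← hiq, hqi]
  have hFPd : ∀ φ x, F φ (Pd x) = F φ x := by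
    intro φ x
    rw [hF]
    show φ (q (Pd x)) - lam φ * bb dl (Pd x) = φ (q x) - lam φ * bb dl x
    rw [hqPd, bb_Pd]
  have hFLam : ∀ φ, Lam dl (F φ) = 0 := by
    intro φ
    rw [hF]
    show Lam dl (φ.comp q - lam φ • bb dl) = 0
    rw [map_sub, map_smul, Lam_bb_self, smul_eq_mul, mul_one, hlam]
    exact sub_self _
  have hΨPd : ∀ φ x, Ψ φ (Pd x) = Ψ φ x := by
    intro φ x
    rw [hΨ]
    show F φ (Ls (Pd x)) + lam φ * ev (bn dl 1) (Pd x) = F φ (Ls x) + lam φ * ev (bn dl 1) x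
    have h1 : Ls (Pd x) = Ls x := by
      apply ext_ev
      intro t
      rw [hL1, hL1, ev_bn_Pd, ev_bn_Pd]
    rw [h1, ev_bn_Pd]
  have hmem : ∀ φ, ∃ y : Y, j y = (Ψ φ).comp Ξ := by
    intro φ
    have h1 : (Ψ φ).comp Ξ ∈ closure (Set.range j) := by
      rw [Metric.mem_closure_iff]
      intro ε hε
      obtain ⟨n, hn⟩ := near_Pd (F φ) (hFPd φ) (hFLam φ) (show 0 < ε / (‖Ξ‖ + 1) by positivity)
      choose y hy using hΞ1
      refine ⟨j (∑ k ∈ range n, F φ (ee (rb k)) • (y (k + 2) - y (k + 1)) + lam φ • y 1), ⟨_, rfl⟩, ?_⟩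
      rw [dist_eq_norm]
      have h2 : ‖(Ψ φ).comp Ξ - j (∑ k ∈ range n, F φ (ee (rb k)) • (y (k + 2) - y (k + 1)) + lam φ • y 1)‖ ≤
          ε / (‖Ξ‖ + 1) * ‖Ξ‖ := by
        refine ContinuousLinearMap.opNorm_le_bound _ (by positivity) fun x => ?_
        have h3 : ((Ψ φ).comp Ξ - j (∑ k ∈ range n, F φ (ee (rb k)) • (y (k + 2) - y (k + 1)) + lam φ • y 1)) x =
            F φ (Ls (Ξ x)) - ∑ k ∈ range n, inc1 k (Ls (Ξ x)) * F φ (ee (rb k)) := by
          rw [map_add, map_sum, map_smul, hΨ]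
          show (F φ (Ls (Ξ x)) + lam φ * ev (bn dl 1) (Ξ x)) -
            ((∑ k ∈ range n, j (F φ (ee (rb k)) • (y (k + 2) - y (k + 1)))) x + lam φ * j (y 1) x) = _
          rw [hy, _root_.sum_apply]
          have h4 : ∑ k ∈ range n, (j (F φ (ee (rb k)) • (y (k + 2) - y (k + 1)))) x =
              ∑ k ∈ range n, inc1 k (Ls (Ξ x)) * F φ (ee (rb k)) := by
            refine Finset.sum_congr rfl fun k _ => ?_
            rw [map_smul, map_sub]
            show F φ (ee (rb k)) * (j (y (k + 2)) x - j (y (k + 1)) x) = _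
            rw [hy, hy]
            unfold inc1
            rw [hL1, hL1, cnt_bn, cnt_bn]
            ring
          rw [h4]
          ring
        rw [h3, Real.norm_eq_abs]
        refine (hn _).trans ?_
        rw [mul_assoc]
        refine mul_le_mul_of_nonneg_left ?_ (by positivity)
        exact (hL2 _).trans (Ξ.le_opNorm _)
      refine h2.trans_lt ?_
      rw [div_mul_eq_mul_div, div_lt_iff₀ (by positivity)]
      nlinarith [norm_nonneg Ξ]
    rw [hclosed.closure_eq] at h1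
    obtain ⟨y, hy⟩ := h1
    exact ⟨y, hy⟩
  choose T hT using hmem
  have hlam_add : ∀ φ φ', lam (φ + φ') = lam φ + lam φ' := by
    intro φ φ'
    rw [hlam]
    show Lam dl ((φ + φ').comp q) = _
    rw [ContinuousLinearMap.add_comp, map_add]
  have hlam_smul : ∀ (a : ℝ) φ, lam (a • φ) = a * lam φ := by
    intro a φ
    rw [hlam]
    show Lam dl ((a • φ).comp q) = _
    rw [ContinuousLinearMap.smul_comp, map_smul, smul_eq_mul]
  have hΨx : ∀ φ x, Ψ φ x = φ (q (Ls x)) - lam φ * bb dl (Ls x) + lam φ * ev (bn dl 1) x := by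
    intro φ x
    rw [hΨ, hF]
    rfl
  have hlam_le : ∀ φ, |lam φ| ≤ ‖φ‖ := by
    intro φ
    rw [← Real.norm_eq_abs, hlam]
    refine (Lam_le dl _).trans ?_
    refine ContinuousLinearMap.opNorm_le_bound _ (norm_nonneg _) fun x => ?_
    exact (φ.le_opNorm _).trans (mul_le_mul_of_nonneg_left (hq x) (norm_nonneg _))
  have hΨ_le : ∀ φ, ‖Ψ φ‖ ≤ 3 * ‖φ‖ := by
    intro φ
    refine ContinuousLinearMap.opNorm_le_bound _ (by positivity) fun x => ?_
    rw [hΨx]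
    have e1 : ‖φ (q (Ls x))‖ ≤ ‖φ‖ * ‖x‖ :=
      (φ.le_opNorm _).trans (mul_le_mul_of_nonneg_left ((hq _).trans (hL2 _)) (norm_nonneg _))
    have e2 : ‖lam φ * bb dl (Ls x)‖ ≤ ‖φ‖ * ‖x‖ := by
      rw [norm_mul, Real.norm_eq_abs (lam φ)]
      exact mul_le_mul (hlam_le φ) ((bb_le _ _).trans (hL2 _)) (norm_nonneg _) (norm_nonneg _)
    have e3 : ‖lam φ * ev (bn dl 1) x‖ ≤ ‖φ‖ * ‖x‖ := by
      rw [norm_mul, Real.norm_eq_abs (lam φ)]
      exact mul_le_mul (hlam_le φ) (ev_le _ _) (norm_nonneg _) (norm_nonneg _)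
    have e4 := norm_add_le (φ (q (Ls x)) - lam φ * bb dl (Ls x)) (lam φ * ev (bn dl 1) x)
    have e5 := norm_sub_le (φ (q (Ls x))) (lam φ * bb dl (Ls x))
    linarith
  let L : StrongDual ℝ Z →ₗ[ℝ] Y :=
    { toFun := T
      map_add' := fun φ φ' => hinj (by
        rw [map_add, hT, hT, hT]
        ext x
        show Ψ (φ + φ') (Ξ x) = Ψ φ (Ξ x) + Ψ φ' (Ξ x)
        rw [hΨx, hΨx, hΨx, hlam_add]
        show φ _ + φ' _ - _ + _ = _
        ring)
      map_smul' := fun a φ => hinj (by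
        rw [RingHom.id_apply, map_smul, hT, hT]
        ext x
        show Ψ (a • φ) (Ξ x) = a * Ψ φ (Ξ x)
        rw [hΨx, hΨx, hlam_smul]
        show a * φ _ - _ + _ = _
        ring) }
  have hLb : ∀ φ, ‖L φ‖ ≤ (c⁻¹ * (3 * ‖Ξ‖)) * ‖φ‖ := by
    intro φ
    show ‖T φ‖ ≤ _
    have h1 := hj (T φ)
    rw [hT] at h1
    have h2 : ‖(Ψ φ).comp Ξ‖ ≤ 3 * ‖φ‖ * ‖Ξ‖ :=
      (ContinuousLinearMap.opNorm_comp_le _ _).trans (mul_le_mul_of_nonneg_right (hΨ_le φ) (norm_nonneg _))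
    rw [mul_assoc, inv_mul_eq_div, le_div_iff₀ hc]
    nlinarith
  refine ⟨L.mkContinuous _ hLb, c1 / (2 * (‖j‖ + 1)), by positivity, fun φ => ?_⟩
  show c1 / (2 * (‖j‖ + 1)) * ‖φ‖ ≤ ‖T φ‖
  have h1 : ‖(Ψ φ).comp Ξ‖ ≤ ‖j‖ * ‖T φ‖ := by
    rw [← hT]
    exact j.le_opNorm _
  have h2 := hΞ2 (Ψ φ) (hΨPd φ)
  have h3 : |lam φ| ≤ ‖Ψ φ‖ := by
    have e1 : Ψ φ (ee (bn dl 1)) = lam φ := by
      rw [hΨ]
      show F φ (Ls (ee (bn dl 1))) + lam φ * ev (bn dl 1) (ee (bn dl 1)) = lam φ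
      have e2 : Ls (ee (bn dl 1)) = 0 := by
        apply ext_ev
        intro t
        rw [hL1, map_zero, ev_ee, ev_ee, if_pos ⟨bn_suffix dl (by omega), bn_ne_nil dl le_rfl⟩,
          if_pos ⟨List.suffix_refl _, bn_ne_nil dl le_rfl⟩, sub_self]
      rw [e2, map_zero, ev_ee, if_pos ⟨List.suffix_refl _, bn_ne_nil dl le_rfl⟩]
      ring
    rw [← e1, ← Real.norm_eq_abs]
    refine ((Ψ φ).le_opNorm _).trans ?_
    have := ee_le (𝕜 := ℝ) (bn dl 1)
    nlinarith [norm_nonneg (Ψ φ)]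
  have h4 : ‖φ‖ ≤ 2 * ‖Ψ φ‖ := by
    refine ContinuousLinearMap.opNorm_le_bound _ (by positivity) fun z => ?_
    have e1 : Ψ φ (Rs (i z)) = φ z - lam φ * bb dl (i z) := by
      rw [hΨ]
      show F φ (Ls (Rs (i z))) + lam φ * ev (bn dl 1) (Rs (i z)) = _
      have e2 : Ls (Rs (i z)) = Pd (i z) := by
        apply ext_ev
        intro t
        rw [hL1, hR1, hR1, cnt_bn, cnt_bn, ev_Pd, Nat.add_sub_cancel, Nat.sub_self]
        show ev (bn dl (cnt chD t)) (i z) - ev [] (i z) = _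
        rw [ev_nil, sub_zero]
      have e3 : ev (bn dl 1) (Rs (i z)) = 0 := by
        rw [hR1, cnt_bn, Nat.sub_self]
        exact ev_nil _
      rw [e2, e3, hFPd, hF]
      show φ (q (i z)) - lam φ * bb dl (i z) + lam φ * 0 = _
      rw [hqi]
      ring
    have e2 : φ z = Ψ φ (Rs (i z)) + lam φ * bb dl (i z) := by
      rw [e1]
      ring
    rw [e2]
    refine (norm_add_le _ _).trans ?_
    have e3 : ‖Ψ φ (Rs (i z))‖ ≤ ‖Ψ φ‖ * ‖z‖ := by
      refine ((Ψ φ).le_opNorm _).trans (mul_le_mul_of_nonneg_left ?_ (norm_nonneg _))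
      rw [← hi]
      exact hR2 _
    have e4 : ‖lam φ * bb dl (i z)‖ ≤ ‖Ψ φ‖ * ‖z‖ := by
      rw [norm_mul, Real.norm_eq_abs (lam φ)]
      refine mul_le_mul h3 ?_ (norm_nonneg _) (norm_nonneg _)
      rw [← hi]
      exact bb_le _ _
    linarith
  have h5 : c1 * ‖φ‖ ≤ 2 * (‖j‖ * ‖T φ‖) := by
    have := mul_le_mul_of_nonneg_left h4 hc1.le
    nlinarith
  rw [div_mul_eq_mul_div, div_le_iff₀ (by positivity)]
  nlinarith [norm_nonneg (T φ), norm_nonneg j]

/-- a bounded linear operator of a model of the James tree space: transfer of subspaces of the dual -/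
theorem q1_general {X : Type} [NormedAddCommGroup X] [NormedSpace ℝ X] {e : (List Bool →₀ ℝ) →ₗ[ℝ] X}
    (hX : IsCompletion jtNorm X e) {Y : Type} [NormedAddCommGroup Y] [NormedSpace ℝ Y] [CompleteSpace Y]
    (j : Y →L[ℝ] StrongDual ℝ X) (c : ℝ) (hc : 0 < c) (hj : ∀ y, c * ‖y‖ ≤ ‖j y‖)
    (hr : ¬ Function.Surjective (NormedSpace.inclusionInDoubleDual ℝ Y))
    {Z : Type} [NormedAddCommGroup Z] [NormedSpace ℝ Z] {e' : (ℕ →₀ ℝ) →ₗ[ℝ] Z}
    (h : IsCompletion jNorm Z e') : ∃ T : StrongDual ℝ Z →L[ℝ] Y, ∃ c' : ℝ, 0 < c' ∧ ∀ φ, c' * ‖φ‖ ≤ ‖T φ‖ := by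
  obtain ⟨i, q, hi, hq, hqi, _⟩ := emb_X hX
  let κ : StrongDual ℝ X →L[ℝ] DR := ContinuousLinearMap.precomp ℝ q
  have hκ : ∀ φ : StrongDual ℝ X, ‖φ‖ ≤ ‖κ φ‖ := by
    intro φ
    refine ContinuousLinearMap.opNorm_le_bound _ (norm_nonneg _) fun x => ?_
    have h1 : φ x = κ φ (i x) := by
      show φ x = φ (q (i x))
      rw [hqi]
    rw [h1, ← hi x]
    exact (κ φ).le_opNorm _
  exact q1_core (κ.comp j) c hc (fun y => (hj y).trans (hκ _)) hr h

end Q99.JTS
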